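import Mathlib

/-!
NP and NP-hardness with respect to Mathlib's model of polynomial-time computation.
-/

namespace Pool.Agent.Helper79.Complexity

open Turing Computability

/-- The class NP (languages over the alphabet `Bool`): there are a verifier `V`, computable in
polynomial time by a Turing machine (Mathlib's `TM2ComputableInPolyTime`) on the encoding of
the pair `(x, y)`, and a polynomial `p`, such that `x ∈ L` iff `V (x, y) = true` for some
certificate `y` of length at most `p |x|`. -/
def InNP (L : Set (List Bool)) : Prop :=
  ∃ (V : List Bool × List Bool → Bool) (p : Polynomial ℕ),
    Nonempty (TM2ComputableInPolyTime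
      (encodingProd (encodingList Bool) (encodingList Bool)).encode
      encodingBoolBool.encode V) ∧
    ∀ x, x ∈ L ↔ ∃ y : List Bool, y.length ≤ p.eval x.length ∧ V (x, y) = true

/-- NP-hardness of the decision problem whose instances are the elements of `P`, encoded as
bit strings by `enc`, and whose yes-instances are the elements of `A`: every language `L` in NP
reduces to it by a many-one reduction `f` which is computable in polynomial time (by a Turing
machine, in the sense of Mathlib's `TM2ComputableInPolyTime`) and only produces instances
in `P`. -/
def NPHardOn {α : Type} (enc : Encoding α Bool) (P A : Set α) : Prop :=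
  ∀ L : Set (List Bool), InNP L →
    ∃ f : List Bool → α,
      Nonempty (TM2ComputableInPolyTime (encodingList Bool).encode enc.encode f) ∧
      ∀ x, f x ∈ P ∧ (x ∈ L ↔ f x ∈ A)

end Pool.Agent.Helper79.Complexity
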