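import Pool.Agent.Helper79.Complexity.Lib

/-!
Nested-loop programs: environments, tests and printing.
-/

namespace Pool.Agent.Helper79.Complexity

open Function

/-- the registers of a nested-loop program with `m` loop counters -/
inductive Reg (m : ℕ) : Type
  | X | OUT | Q | N | ta | tb | ac
  | R (k : Fin m)
  | D (k : Fin m)
  deriving DecidableEq, Fintype

/-- an environment: the input, the range `T` of the loop counters, a second bound `q`, and
the values of the loop counters (`none` if the loop is not active) -/
structure Env (m : ℕ) where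
  x : List Bool
  T : ℕ
  q : ℕ
  v : Fin m → Option ℕ

namespace Env

variable {m : ℕ}

def rlen (T : ℕ) : Option ℕ → ℕ
  | none => T
  | some i => i

def dlen (T : ℕ) : Option ℕ → ℕ
  | none => 0
  | some i => T - 1 - i

/-- the store of an environment -/
def sto (e : Env m) (o : List Bool) : Sto (Reg m)
  | .X => e.x
  | .OUT => o
  | .Q => List.replicate e.q true
  | .N => []
  | .ta => []
  | .tb => []
  | .ac => []
  | .R k => List.replicate (rlen e.T (e.v k)) true
  | .D k => List.replicate (dlen e.T (e.v k)) true

/-- the counters are in range -/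
def Valid (e : Env m) : Prop := ∀ k i, e.v k = some i → i < e.T

/-- all counters are active -/
def Active (e : Env m) : Prop := ∀ k, ∃ i, e.v k = some i

/-- the value of a counter -/
def val (e : Env m) (k : Fin m) : ℕ := rlen e.T (e.v k)

/-- the size parameter -/
def size (e : Env m) : ℕ := e.T + e.x.length + e.q

/-- set a counter -/
def set (e : Env m) (k : Fin m) (i : ℕ) : Env m := { e with v := update e.v k (some i) }

theorem size_set (e : Env m) (k : Fin m) (i : ℕ) : (e.set k i).size = e.size := rfl

theorem Valid.set {e : Env m} (he : e.Valid) {k : Fin m} {i : ℕ} (hi : i < e.T) :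
    (e.set k i).Valid := by
  intro k' i' h
  simp only [Env.set] at h ⊢
  by_cases hk : k' = k
  · subst hk
    simp at h
    omega
  · rw [update_of_ne hk] at h
    exact he k' i' h

theorem rlen_le {e : Env m} (he : e.Valid) (k : Fin m) : rlen e.T (e.v k) ≤ e.T := by
  cases h : e.v k with
  | none => simp [rlen]
  | some i => simp only [rlen]; exact (he k i h).le

theorem dlen_le {e : Env m} (k : Fin m) : dlen e.T (e.v k) ≤ e.T := by
  cases h : e.v k with
  | none => simp [dlen]
  | some i => simp only [dlen]; omega

end Env

open Prog Env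

variable {m : ℕ}

/-- a condition on environments that programs can test -/
def Testable (P : Env m → Prop) : Prop :=
  ∃ (br : Prog (Reg m) → Prog (Reg m) → Prog (Reg m)) (K : Polynomial ℕ),
    ∀ (e : Env m), e.Valid → e.Active →
      ∀ (p q : Prog (Reg m)) (o : List Bool) (s' : Sto (Reg m)) (n : ℕ),
      (P e → ExecLe p (e.sto o) s' n) → (¬ P e → ExecLe q (e.sto o) s' n) →
      ExecLe (br p q) (e.sto o) s' (n + K.eval e.size)

theorem Testable.congr {P P' : Env m → Prop} (h : Testable P)
    (hPP : ∀ e, e.Valid → e.Active → (P' e ↔ P e)) :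
    Testable P' := by
  obtain ⟨br, K, hb⟩ := h
  refine ⟨br, K, fun e he ha p q o s' n h1 h2 => hb e he ha p q o s' n ?_ ?_⟩
  · intro h; exact h1 ((hPP e he ha).2 h)
  · intro h; exact h2 fun h' => h ((hPP e he ha).1 h')

theorem Testable.tt : Testable (fun _ : Env m => True) :=
  ⟨fun p _ => p, 0, fun e _ _ p q o s' n h1 _ => by simpa using h1 trivial⟩

theorem Testable.not {P : Env m → Prop} (h : Testable P) : Testable (fun e => ¬ P e) := by
  obtain ⟨br, K, hb⟩ := h
  refine ⟨fun p q => br q p, K, fun e he ha p q o s' n h1 h2 => hb e he ha q p o s' n ?_ h1⟩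
  intro h
  exact h2 (fun h' => h' h)

theorem Testable.ff : Testable (fun _ : Env m => False) :=
  Testable.tt.not.congr (fun _ _ _ => by simp)

theorem Testable.const (p : Prop) : Testable (fun _ : Env m => p) := by
  by_cases h : p
  · exact Testable.tt.congr (fun _ _ _ => by simp [h])
  · exact Testable.ff.congr (fun _ _ _ => by simp [h])

theorem Testable.and {P P' : Env m → Prop} (h : Testable P) (h' : Testable P') :
    Testable (fun e => P e ∧ P' e) := by
  obtain ⟨br, K, hb⟩ := h
  obtain ⟨br', K', hb'⟩ := h'
  refine ⟨fun p q => br (br' p q) q, K + K', fun e he ha p q o s' n h1 h2 => ?_⟩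
  have := hb e he ha (br' p q) q o s' (n + K'.eval e.size) ?_ ?_
  · refine this.mono ?_
    rw [Polynomial.eval_add]; omega
  · intro hP
    exact hb' e he ha p q o s' n (fun hP' => h1 ⟨hP, hP'⟩) (fun hP' => h2 fun h => hP' h.2)
  · intro hP
    exact (h2 fun h => hP h.1).mono (by omega)

theorem Testable.or {P P' : Env m → Prop} (h : Testable P) (h' : Testable P') :
    Testable (fun e => P e ∨ P' e) :=
  (h.not.and h'.not).not.congr (fun e _ _ => by tauto)

/-- a condition depending on the truth value of a testable condition -/
theorem Testable.bool {P : Env m → Prop} [DecidablePred P] {Q : Bool → Env m → Prop}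
    (h : Testable P)
    (hQ : ∀ b, Testable (Q b)) : Testable (fun e => Q (decide (P e)) e) :=
  ((h.and (hQ true)).or (h.not.and (hQ false))).congr (fun e _ _ => by
    by_cases hP : P e <;> simp [hP])

/-- a string depending on the environment that programs can print, when exactly the
counters in `S` are not active -/
def Printable (S : Set (Fin m)) (g : Env m → List Bool) : Prop :=
  ∃ (p : Prog (Reg m)) (K : Polynomial ℕ),
    ∀ (e : Env m), e.Valid → (∀ k, k ∈ S ↔ e.v k = none) → ∀ o : List Bool,
      ExecLe p (e.sto o) (e.sto (g e ++ o)) (K.eval e.size)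

theorem Printable.congr {S : Set (Fin m)} {g g' : Env m → List Bool} (h : Printable S g)
    (hg : ∀ e, e.Valid → (∀ k, k ∈ S ↔ e.v k = none) → g' e = g e) : Printable S g' := by
  obtain ⟨p, K, hp⟩ := h
  refine ⟨p, K, fun e he hS o => ?_⟩
  rw [hg e he hS]
  exact hp e he hS o

theorem sto_update_out (e : Env m) (o o' : List Bool) :
    update (e.sto o) Reg.OUT o' = e.sto o' := by
  funext r
  cases r <;> simp [Env.sto]

theorem Printable.const (S : Set (Fin m)) (l : List Bool) : Printable S (fun _ => l) := by
  refine ⟨pushes Reg.OUT l, Polynomial.C (l.length + 1), fun e _ _ o => ?_⟩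
  have := pushes_exec Reg.OUT l (e.sto o)
  rw [sto_update_out] at this
  rw [Polynomial.eval_C]
  exact this

theorem Printable.append {S : Set (Fin m)} {g g' : Env m → List Bool} (h : Printable S g)
    (h' : Printable S g') : Printable S (fun e => g e ++ g' e) := by
  obtain ⟨p, K, hp⟩ := h
  obtain ⟨p', K', hp'⟩ := h'
  refine ⟨.seq p' p, K' + K, fun e he hS o => ?_⟩
  have := (hp' e he hS o).seq (hp e he hS (g' e ++ o))
  rw [← List.append_assoc] at this
  rw [Polynomial.eval_add]
  exact this

theorem Printable.ite {P : Env m → Prop} [DecidablePred P] {g g' : Env m → List Bool}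
    (hP : Testable P) (h : Printable ∅ g)
    (h' : Printable ∅ g') : Printable ∅ (fun e => if P e then g e else g' e) := by
  obtain ⟨br, K0, hb⟩ := hP
  obtain ⟨p, K, hp⟩ := h
  obtain ⟨p', K', hp'⟩ := h'
  refine ⟨br p p', K + K' + K0, fun e he hS o => ?_⟩
  have ha : e.Active := fun k => by
    cases hk : e.v k with
    | none => exact absurd ((hS k).2 hk) (by simp)
    | some i => exact ⟨i, rfl⟩
  have := hb e he ha p p' o (e.sto ((if P e then g e else g' e) ++ o)) ((K + K').eval e.size) ?_ ?_
  · rw [Polynomial.eval_add (p := K + K')]
    exact this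
  · intro h
    rw [if_pos h]
    exact (hp e he hS o).mono (by rw [Polynomial.eval_add]; omega)
  · intro h
    rw [if_neg h]
    exact (hp' e he hS o).mono (by rw [Polynomial.eval_add]; omega)

theorem Printable.flatMap {S : Set (Fin m)} {β : Type*} (L : List β)
    {g : β → Env m → List Bool} (h : ∀ b, Printable S (g b)) :
    Printable S (fun e => L.flatMap (fun b => g b e)) := by
  induction L with
  | nil => exact (Printable.const S []).congr (fun _ _ _ => by simp)
  | cons b L ih => exact ((h b).append ih).congr (fun _ _ _ => by simp)

/-- the loop over the counter `k` -/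
def loopProg (k : Fin m) (body : Prog (Reg m)) : Prog (Reg m) :=
  .seq (.loop (fun t => (t (Reg.R k)).isSome)
      (.seq (.pop (Reg.R k)) (.seq body (.push (Reg.D k) true))))
    (mvAll (Reg.D k) (Reg.R k))

/-- the store at the head of a loop when `j` rounds remain -/
def headSto (e : Env m) (k : Fin m) (j : ℕ) (o : List Bool) : Sto (Reg m) :=
  update (update (e.sto o) (Reg.R k) (List.replicate j true)) (Reg.D k)
    (List.replicate (e.T - j) true)

theorem head_pop (e : Env m) (k : Fin m) (j : ℕ) (o : List Bool) :
    update (headSto e k (j + 1) o) (Reg.R k) (headSto e k (j + 1) o (Reg.R k)).tail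
      = (e.set k j).sto o := by
  have h0 : headSto e k (j + 1) o (Reg.R k) = List.replicate (j + 1) true := by
    unfold headSto
    rw [update_of_ne (by simp), update_self]
  rw [h0]
  funext r
  by_cases h1 : r = Reg.R k
  · subst h1
    simp [Env.sto, Env.set, rlen]
  · by_cases h2 : r = Reg.D k
    · subst h2
      simp [headSto, Env.sto, Env.set, dlen]
      omega
    · rw [update_of_ne h1]
      unfold headSto
      rw [update_of_ne h2, update_of_ne h1]
      cases r with
      | R k' =>
        have : k' ≠ k := fun h => h1 (by rw [h])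
        simp [Env.sto, Env.set, update_of_ne this]
      | D k' =>
        have : k' ≠ k := fun h => h2 (by rw [h])
        simp [Env.sto, Env.set, update_of_ne this]
      | _ => rfl

theorem head_push (e : Env m) (k : Fin m) (j : ℕ) (hj : j < e.T) (o : List Bool) :
    update ((e.set k j).sto o) (Reg.D k) (true :: (e.set k j).sto o (Reg.D k))
      = headSto e k j o := by
  funext r
  by_cases h2 : r = Reg.D k
  · subst h2
    simp only [Env.sto, Env.set, dlen, headSto, update_self]
    rw [← List.replicate_succ]
    congr 1
    omega
  · rw [update_of_ne h2]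
    unfold headSto
    rw [update_of_ne h2]
    by_cases h1 : r = Reg.R k
    · subst h1
      simp [Env.sto, Env.set, rlen]
    · rw [update_of_ne h1]
      cases r with
      | R k' =>
        have : k' ≠ k := fun h => h1 (by rw [h])
        simp [Env.sto, Env.set, update_of_ne this]
      | D k' =>
        have : k' ≠ k := fun h => h2 (by rw [h])
        simp [Env.sto, Env.set, update_of_ne this]
      | _ => rfl

theorem head_start (e : Env m) (k : Fin m) (hk : e.v k = none) (o : List Bool) :
    headSto e k e.T o = e.sto o := by
  funext r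
  unfold headSto
  by_cases h2 : r = Reg.D k
  · subst h2
    simp [Env.sto, hk, dlen]
  · rw [update_of_ne h2]
    by_cases h1 : r = Reg.R k
    · subst h1
      simp [Env.sto, hk, rlen]
    · rw [update_of_ne h1]

theorem head_end (e : Env m) (k : Fin m) (hk : e.v k = none) (o : List Bool) :
    update (update (headSto e k 0 o) (Reg.D k) []) (Reg.R k)
      ((headSto e k 0 o (Reg.D k)).reverse ++ headSto e k 0 o (Reg.R k)) = e.sto o := by
  funext r
  by_cases h1 : r = Reg.R k
  · subst h1
    simp [headSto, Env.sto, hk, rlen]
  · rw [update_of_ne h1]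
    by_cases h2 : r = Reg.D k
    · subst h2
      simp [Env.sto, hk, dlen]
    · rw [update_of_ne h2]
      unfold headSto
      rw [update_of_ne h2, update_of_ne h1]

theorem loop_exec {k : Fin m} {body : Prog (Reg m)} {g : Env m → List Bool} {B : ℕ} (e : Env m)
    (h : ∀ i, i < e.T → ∀ o, ExecLe body ((e.set k i).sto o)
      ((e.set k i).sto (g (e.set k i) ++ o)) B)
    (j : ℕ) (hj : j ≤ e.T) (o : List Bool) :
    ExecLe (.loop (fun t => (t (Reg.R k)).isSome)
      (.seq (.pop (Reg.R k)) (.seq body (.push (Reg.D k) true))))
      (headSto e k j o) (headSto e k 0 ((List.range j).flatMap (fun i => g (e.set k i)) ++ o))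
      (j * (B + 3) + 1) := by
  induction j generalizing o with
  | zero =>
    simp only [List.range_zero, List.flatMap_nil, List.nil_append]
    have := ExecLe.loop_done (c := fun t => (t (Reg.R k)).isSome)
      (p := .seq (.pop (Reg.R k)) (.seq body (.push (Reg.D k) true))) (s := headSto e k 0 o)
      (by simp [tops, headSto])
    exact this.mono (by omega)
  | succ j ih =>
    have h1 := ExecLe.pop (Reg.R k) (headSto e k (j + 1) o)
    rw [head_pop] at h1
    have h2 := h j (by omega) o
    have h3 := ExecLe.push (Reg.D k) true ((e.set k j).sto (g (e.set k j) ++ o))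
    rw [head_push e k j (by omega)] at h3
    have h4 := ih (by omega) (g (e.set k j) ++ o)
    have h5 := ExecLe.loop_step (c := fun t => (t (Reg.R k)).isSome)
      (by simp [tops, headSto, List.replicate_succ]) (h1.seq (h2.seq h3)) h4
    rw [List.range_succ, List.flatMap_append]
    simp only [List.flatMap_cons, List.flatMap_nil, List.append_nil, List.append_assoc]
    refine h5.mono ?_
    ring_nf
    omega

theorem Printable.loop {S : Set (Fin m)} {g : Env m → List Bool} (k : Fin m) (hk : k ∈ S)
    (h : Printable (S \ {k}) g) :
    Printable S (fun e => (List.range e.T).flatMap (fun i => g (e.set k i))) := by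
  obtain ⟨p, K, hp⟩ := h
  refine ⟨loopProg k p, Polynomial.X * (K + 3) + 1 + (5 * Polynomial.X + 1), fun e he hS o => ?_⟩
  have hkn : e.v k = none := (hS k).1 hk
  have h1 := loop_exec (k := k) (body := p) (g := g) (B := K.eval e.size) e
    (fun i hi o => by
      have := hp (e.set k i) (he.set hi) (fun k' => by
        by_cases hne : k' = k
        · subst hne
          simp [Env.set]
        · simp only [Env.set, update_of_ne hne, Set.mem_diff, Set.mem_singleton_iff, hne,
            not_false_eq_true, and_true]
          exact hS k') o
      rwa [Env.size_set] at this) e.T le_rfl o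
  rw [head_start e k hkn] at h1
  have h2 := mvAll_exec (a := Reg.D k) (b := Reg.R k) (by simp)
    (headSto e k 0 ((List.range e.T).flatMap (fun i => g (e.set k i)) ++ o))
  rw [head_end e k hkn] at h2
  have h3 := h1.seq h2
  refine h3.mono ?_
  have hlen : (headSto e k 0 ((List.range e.T).flatMap (fun i => g (e.set k i)) ++ o)
      (Reg.D k)).length = e.T := by
    simp [headSto]
  rw [hlen]
  simp only [Polynomial.eval_add, Polynomial.eval_mul, Polynomial.eval_X, Polynomial.eval_one,
    Polynomial.eval_ofNat]
  have hT : e.T ≤ e.size := by unfold Env.size; omega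
  have := Nat.mul_le_mul_right (K.eval e.size + 3) hT
  omega

/-! ### Atomic tests -/

theorem Testable.sync (a b : Reg m) (hab : a ≠ b) (ha1 : a ≠ Reg.ta) (ha2 : a ≠ Reg.tb)
    (hb1 : b ≠ Reg.ta) (hb2 : b ≠ Reg.tb) (ha3 : a ≠ Reg.OUT)
    (cond : Option Bool → Option Bool → Bool)
    (P : Env m → Prop)
    (hP : ∀ e o, e.Valid → e.Active → (P e ↔ syncVal cond (e.sto o a) (e.sto o b) = true)) :
    Testable P := by
  refine ⟨fun p q => Prog.sync a b Reg.ta Reg.tb cond p q, 19 * Polynomial.X + 4,
    fun e he ha p q o s' n h1 h2 => ?_⟩
  have hd : Distinct4 a b (Reg.ta : Reg m) Reg.tb := ⟨hab, ha1, ha2, hb1, hb2, by simp⟩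
  have := sync_exec hd (cond := cond) (p := p) (q := q) (s := e.sto o) (s' := s') (n := n) rfl rfl
    (by
      by_cases h : P e
      · rw [if_pos ((hP e o he ha).1 h)]; exact h1 h
      · rw [if_neg (fun h' => h ((hP e o he ha).2 h'))]; exact h2 h)
  refine this.mono ?_
  simp only [Polynomial.eval_add, Polynomial.eval_mul, Polynomial.eval_X, Polynomial.eval_ofNat]
  have hlen : (e.sto o a).length ≤ e.size := by
    have h3 := rlen_le he
    have h4 := dlen_le (e := e)
    cases a with
    | OUT => exact absurd rfl ha3
    | R k => simp only [Env.sto, List.length_replicate, Env.size]; have := h3 k; omega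
    | D k => simp only [Env.sto, List.length_replicate, Env.size]; have := h4 k; omega
    | _ => simp [Env.sto, Env.size] <;> omega
  have : min (e.sto o a).length (e.sto o b).length ≤ e.size := (min_le_left _ _).trans hlen
  omega

theorem Testable.empty (a : Reg m)
    (P : Env m → Prop)
    (hP : ∀ e o, e.Valid → e.Active → (P e ↔ (e.sto o a) = [])) : Testable P := by
  refine ⟨fun p q => .ite (fun t => (t a).isNone) p q, 1, fun e he ha p q o s' n h1 h2 => ?_⟩
  simp only [Polynomial.eval_one]
  by_cases h : P e
  · apply ExecLe.ite_true _ (h1 h)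
    rw [hP e o he ha] at h
    simp [tops, h]
  · apply ExecLe.ite_false _ (h2 h)
    rw [hP e o he ha] at h
    cases h' : e.sto o a with
    | nil => exact absurd h' h
    | cons u l => simp [tops, h']

theorem replicate_syncVal_eq (a b : ℕ) :
    syncVal (fun u v => u.isNone && v.isNone) (List.replicate a true) (List.replicate b true) = true
      ↔ a = b := by
  unfold syncVal
  simp only [List.length_replicate, List.drop_replicate]
  rcases lt_trichotomy a b with h | h | h
  · have h1 : a - min a b = 0 := by omega
    obtain ⟨c, hc⟩ : ∃ c, b - min a b = c + 1 := ⟨b - min a b - 1, by omega⟩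
    rw [h1, hc]
    simp [List.replicate_succ]
    omega
  · subst h
    simp
  · have h1 : b - min a b = 0 := by omega
    obtain ⟨c, hc⟩ : ∃ c, a - min a b = c + 1 := ⟨a - min a b - 1, by omega⟩
    rw [h1, hc]
    simp [List.replicate_succ]
    omega

/-- the counters `j` and `k` are equal -/
theorem Testable.eq (j k : Fin m) :
    Testable (fun e : Env m => e.val j = e.val k) := by
  by_cases hjk : j = k
  · subst hjk
    exact Testable.tt.congr (fun _ _ _ => by simp)
  · apply Testable.sync (Reg.R j) (Reg.R k) (by simpa using hjk) (by simp) (by simp) (by simp)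
      (by simp) (by simp) (fun u v => u.isNone && v.isNone)
    intro e o _ _
    simp only [Env.sto, Env.val]
    rw [replicate_syncVal_eq]

/-- the counter `k` is zero -/
theorem Testable.zero (k : Fin m) : Testable (fun e : Env m => e.val k = 0) := by
  apply Testable.empty (Reg.R k)
  intro e o _ _
  simp [Env.sto, Env.val]

/-- the counter `k` has its last value -/
theorem Testable.last (k : Fin m) : Testable (fun e : Env m => e.val k + 1 = e.T) := by
  apply Testable.empty (Reg.D k)
  intro e o he ha
  obtain ⟨i, hi⟩ := ha k
  have := he k i hi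
  simp only [Env.val, hi, Env.rlen, Env.sto, Env.dlen, List.replicate_eq_nil_iff]
  omega

/-- the counter `k` is less than `q` -/
theorem Testable.ltQ (k : Fin m) : Testable (fun e : Env m => e.val k < e.q) := by
  apply Testable.sync (Reg.R k) Reg.Q (by simp) (by simp) (by simp) (by simp) (by simp) (by simp)
    (fun u v => u.isNone && v.isSome)
  intro e o _ _
  simp only [Env.val, Env.sto, syncVal, List.length_replicate, List.drop_replicate]
  generalize rlen e.T (e.v k) = a
  generalize e.q = b
  by_cases h : a < b
  · have h1 : a - min a b = 0 := by omega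
    obtain ⟨c, hc⟩ : ∃ c, b - min a b = c + 1 := ⟨b - min a b - 1, by omega⟩
    rw [h1, hc]
    simp [List.replicate_succ, h]
  · have h1 : b - min a b = 0 := by omega
    rw [h1]
    simp [h]

/-- the letter of the input at the position of counter `k` is `c` -/
theorem Testable.letter (k : Fin m) (c : Bool) :
    Testable (fun e : Env m => e.x[e.val k]? = some c) := by
  apply Testable.sync (Reg.R k) Reg.X (by simp) (by simp) (by simp) (by simp) (by simp) (by simp)
    (fun u v => u.isNone && (v == some c))
  intro e o _ _
  simp only [Env.val, Env.sto, syncVal, List.length_replicate, List.drop_replicate]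
  generalize rlen e.T (e.v k) = a
  generalize e.x = x
  by_cases h : a < x.length
  · have h1 : min a x.length = a := by omega
    rw [h1]
    simp [List.head?_drop]
  · have h1 : x[a]? = none := by simp; omega
    rw [h1]
    have h2 : min a x.length = x.length := by omega
    rw [h2]
    simp

/-- the counter `j` is the successor of the counter `k` -/
theorem Testable.succ (j k : Fin m) :
    Testable (fun e : Env m => e.val j = e.val k + 1) := by
  by_cases hjk : j = k
  · subst hjk
    exact Testable.ff.congr (fun _ _ _ => by simp)
  · refine ⟨fun p q => .seq (.push (Reg.R k) true) (Prog.sync (Reg.R j) (Reg.R k) Reg.ta Reg.tb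
      (fun u v => u.isNone && v.isNone) (.seq (.pop (Reg.R k)) p) (.seq (.pop (Reg.R k)) q)),
      19 * Polynomial.X + 6, fun e he _ p q o s' n h1 h2 => ?_⟩
    have hd : Distinct4 (Reg.R j) (Reg.R k) (Reg.ta : Reg m) Reg.tb :=
      ⟨by simpa using hjk, by simp, by simp, by simp, by simp, by simp⟩
    have hne : (Reg.R j : Reg m) ≠ Reg.R k := by simpa using hjk
    have e1 := ExecLe.push (Reg.R k) true (e.sto o)
    set s1 := update (e.sto o) (Reg.R k) (true :: e.sto o (Reg.R k)) with hs1
    have hpop : ExecLe (.pop (Reg.R k)) s1 (e.sto o) 1 := by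
      have := ExecLe.pop (Reg.R k) s1
      have e2 : update s1 (Reg.R k) (s1 (Reg.R k)).tail = e.sto o := by
        rw [hs1]; simp
      rwa [e2] at this
    have hval : syncVal (fun u v => u.isNone && v.isNone) (s1 (Reg.R j)) (s1 (Reg.R k)) = true ↔
        e.val j = e.val k + 1 := by
      rw [← replicate_syncVal_eq]
      rw [hs1, update_self, update_of_ne hne]
      simp only [Env.sto, Env.val, List.replicate_succ]
    have e3 := sync_exec hd (cond := fun u v => u.isNone && v.isNone)
      (p := .seq (.pop (Reg.R k)) p) (q := .seq (.pop (Reg.R k)) q) (s := s1) (s' := s')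
      (n := 1 + n) (by rw [hs1, update_of_ne (by simp)]; rfl)
      (by rw [hs1, update_of_ne (by simp)]; rfl)
      (by
        by_cases h : e.val j = e.val k + 1
        · rw [if_pos (hval.2 h)]; exact hpop.seq (h1 h)
        · rw [if_neg (fun h' => h (hval.1 h'))]; exact hpop.seq (h2 h))
    have e4 := e1.seq e3
    refine e4.mono ?_
    simp only [Polynomial.eval_add, Polynomial.eval_mul, Polynomial.eval_X, Polynomial.eval_ofNat]
    have hlen : (s1 (Reg.R j)).length ≤ e.size := by
      rw [hs1, update_of_ne hne]
      simp only [Env.sto, List.length_replicate, Env.size]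
      have := rlen_le he j
      omega
    have : min (s1 (Reg.R j)).length (s1 (Reg.R k)).length ≤ e.size := (min_le_left _ _).trans hlen
    omega

end Pool.Agent.Helper79.Complexity
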