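import Pool.Agent.Helper79.Complexity.Tableau

/-!
Grid colourings as a set cover problem.
-/

namespace Pool.Agent.Helper79.Complexity

variable {C : Type}

/-- The incidence relation of the set cover instance of a grid colouring problem: the
elements are `(t, i, κ)`, the sets are `(s, j, c)`. -/
def coverRel (W : C → C → C → C → Prop) (U : Cls → C → Prop) (x : List Bool) (T q : ℕ) :
    (ℕ × ℕ × Option (C × C × C × C)) → (ℕ × ℕ × C) → Prop
  | (t, i, none), (s, j, c) => s = t ∧ j = i ∧ U (cls x T q t i) c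
  | (t, i, some (a, b, a', b')), (s, j, c) =>
      ((¬ (t + 1 = T) ∧ ¬ (i + 1 = T) ∧ ¬ W a b a' b') ∧
        ((s = t ∧ j = i ∧ c ≠ a) ∨ (s = t ∧ j = i + 1 ∧ c ≠ b) ∨
          (s = t + 1 ∧ j = i ∧ c ≠ a') ∨ (s = t + 1 ∧ j = i + 1 ∧ c ≠ b'))) ∨
      (¬ (¬ (t + 1 = T) ∧ ¬ (i + 1 = T) ∧ ¬ W a b a' b') ∧ s = t ∧ j = i)

/-- forget the bounds -/
def natE {T : ℕ} {κ : Type} (e : Fin T × Fin T × κ) : ℕ × ℕ × κ := (e.1, e.2.1, e.2.2)

theorem grid_iff_cover (W : C → C → C → C → Prop) (U : Cls → C → Prop) (x : List Bool)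
    (T q : ℕ) [Inhabited C] :
    (∃ f : ℕ → ℕ → C, Grid W U x T q f) ↔
      ∃ A : Finset (Fin T × Fin T × C), A.card ≤ T * T ∧
        ∀ e : Fin T × Fin T × Option (C × C × C × C), ∃ a ∈ A,
          coverRel W U x T q (natE e) (natE a) := by
  classical
  constructor
  · rintro ⟨f, hW, hU⟩
    refine ⟨(Finset.univ : Finset (Fin T × Fin T)).image (fun p => (p.1, p.2, f p.1 p.2)), ?_, ?_⟩
    · refine Finset.card_image_le.trans ?_
      simp
    · have hmem : ∀ (t i : Fin T), (t, i, f t i) ∈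
          (Finset.univ : Finset (Fin T × Fin T)).image (fun p => (p.1, p.2, f p.1 p.2)) := by
        intro t i
        exact Finset.mem_image_of_mem (fun p : Fin T × Fin T => (p.1, p.2, f p.1 p.2))
          (Finset.mem_univ (t, i))
      rintro ⟨t, i, κ⟩
      match κ with
      | none =>
        exact ⟨_, hmem t i, rfl, rfl, hU t i t.2 i.2⟩
      | some (a, b, a', b') =>
        by_cases h : ¬ ((t : ℕ) + 1 = T) ∧ ¬ ((i : ℕ) + 1 = T) ∧ ¬ W a b a' b'
        · obtain ⟨ht, hi, hnW⟩ := h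
          have ht' : (t : ℕ) + 1 < T := by omega
          have hi' : (i : ℕ) + 1 < T := by omega
          have hw := hW t i ht' hi'
          by_cases h1 : f t i = a
          · by_cases h2 : f t (i + 1) = b
            · by_cases h3 : f (t + 1) i = a'
              · by_cases h4 : f (t + 1) (i + 1) = b'
                · rw [h1, h2, h3, h4] at hw
                  exact absurd hw hnW
                · refine ⟨_, hmem ⟨t + 1, ht'⟩ ⟨i + 1, hi'⟩, Or.inl ⟨⟨ht, hi, hnW⟩, ?_⟩⟩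
                  exact Or.inr (Or.inr (Or.inr ⟨rfl, rfl, h4⟩))
              · refine ⟨_, hmem ⟨t + 1, ht'⟩ i, Or.inl ⟨⟨ht, hi, hnW⟩, ?_⟩⟩
                exact Or.inr (Or.inr (Or.inl ⟨rfl, rfl, h3⟩))
            · refine ⟨_, hmem t ⟨i + 1, hi'⟩, Or.inl ⟨⟨ht, hi, hnW⟩, ?_⟩⟩
              exact Or.inr (Or.inl ⟨rfl, rfl, h2⟩)
          · refine ⟨_, hmem t i, Or.inl ⟨⟨ht, hi, hnW⟩, ?_⟩⟩
            exact Or.inl ⟨rfl, rfl, h1⟩
        · exact ⟨_, hmem t i, Or.inr ⟨h, rfl, rfl⟩⟩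
  · rintro ⟨A, hA, hcov⟩
    have hcell : ∀ p : Fin T × Fin T, ∃ c : C, (p.1, p.2, c) ∈ A ∧
        U (cls x T q p.1 p.2) c := by
      rintro ⟨t, i⟩
      obtain ⟨⟨s, j, c⟩, ha, h1, h2, h3⟩ := hcov (t, i, none)
      simp only at h1 h2
      have h1' : s = t := Fin.ext h1
      have h2' : j = i := Fin.ext h2
      subst h1' h2'
      exact ⟨c, ha, h3⟩
    choose g hg hgU using hcell
    -- uniqueness by counting
    have himg : (Finset.univ : Finset (Fin T × Fin T)).image (fun p => (p.1, p.2, g p)) = A := by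
      apply Finset.eq_of_subset_of_card_le
      · intro a ha
        obtain ⟨p, _, rfl⟩ := Finset.mem_image.1 ha
        exact hg p
      · rw [Finset.card_image_of_injective]
        · simpa using hA
        · rintro ⟨a, b⟩ ⟨a', b'⟩ h
          simp only [Prod.mk.injEq] at h
          rw [h.1, h.2.1]
    have huniq : ∀ (t i : Fin T) (c : C), (t, i, c) ∈ A → c = g (t, i) := by
      intro t i c h
      rw [← himg] at h
      obtain ⟨⟨t', i'⟩, _, hp⟩ := Finset.mem_image.1 h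
      simp only [Prod.mk.injEq] at hp
      obtain ⟨rfl, rfl, hc⟩ := hp
      exact hc.symm
    refine ⟨fun t i => if h : t < T ∧ i < T then g (⟨t, h.1⟩, ⟨i, h.2⟩) else default, ?_, ?_⟩
    · intro t i ht hi
      have ht0 : t < T := by omega
      have hi0 : i < T := by omega
      beta_reduce
      rw [dif_pos ⟨ht0, hi0⟩, dif_pos ⟨ht0, hi⟩, dif_pos ⟨ht, hi0⟩, dif_pos ⟨ht, hi⟩]
      by_contra hnW
      obtain ⟨⟨s, j, c⟩, ha, hrel⟩ := hcov (⟨t, ht0⟩, ⟨i, hi0⟩,
        some (g (⟨t, ht0⟩, ⟨i, hi0⟩), g (⟨t, ht0⟩, ⟨i + 1, hi⟩),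
          g (⟨t + 1, ht⟩, ⟨i, hi0⟩), g (⟨t + 1, ht⟩, ⟨i + 1, hi⟩)))
      have hc := huniq s j c ha
      simp only [natE, coverRel] at hrel
      rcases hrel with ⟨-, h⟩ | ⟨h, -⟩
      · rcases h with ⟨h1, h2, h3⟩ | ⟨h1, h2, h3⟩ | ⟨h1, h2, h3⟩ | ⟨h1, h2, h3⟩
        · apply h3; rw [hc]; congr 2 <;> exact Fin.ext (by assumption)
        · apply h3; rw [hc]; congr 2 <;> exact Fin.ext (by assumption)
        · apply h3; rw [hc]; congr 2 <;> exact Fin.ext (by assumption)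
        · apply h3; rw [hc]; congr 2 <;> exact Fin.ext (by assumption)
      · exact h ⟨by omega, by omega, hnW⟩
    · intro t i ht hi
      beta_reduce
      rw [dif_pos ⟨ht, hi⟩]
      exact hgU (⟨t, ht⟩, ⟨i, hi⟩)

end Pool.Agent.Helper79.Complexity
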