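import Pool.Agent.Helper79.Complexity.Prog

/-!
Library of small programs.
-/

namespace Pool.Agent.Helper79.Complexity

open Function

namespace Prog

variable {R : Type} [DecidableEq R]

/-- execution within a number of steps -/
def ExecLe (p : Prog R) (s s' : Sto R) (n : ℕ) : Prop := ∃ m, m ≤ n ∧ Exec p s s' m

theorem ExecLe.mono {p : Prog R} {s s' : Sto R} {n n' : ℕ} (h : ExecLe p s s' n) (hn : n ≤ n') :
    ExecLe p s s' n' := by
  obtain ⟨m, hm, h⟩ := h
  exact ⟨m, hm.trans hn, h⟩

theorem ExecLe.skip (s : Sto R) : ExecLe .skip s s 1 := ⟨1, le_rfl, .skip s⟩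

theorem ExecLe.push (r : R) (a : Bool) (s : Sto R) :
    ExecLe (.push r a) s (update s r (a :: s r)) 1 := ⟨1, le_rfl, .push r a s⟩

theorem ExecLe.pop (r : R) (s : Sto R) :
    ExecLe (.pop r) s (update s r (s r).tail) 1 := ⟨1, le_rfl, .pop r s⟩

theorem ExecLe.seq {p q : Prog R} {s s' s'' : Sto R} {m n : ℕ} (h1 : ExecLe p s s' m)
    (h2 : ExecLe q s' s'' n) : ExecLe (.seq p q) s s'' (m + n) := by
  obtain ⟨m1, hm1, h1⟩ := h1
  obtain ⟨m2, hm2, h2⟩ := h2
  exact ⟨m1 + m2, by omega, .seq h1 h2⟩

theorem ExecLe.ite_true {c : (R → Option Bool) → Bool} {p q : Prog R} {s s' : Sto R} {n : ℕ}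
    (hc : c (tops s) = true) (h : ExecLe p s s' n) : ExecLe (.ite c p q) s s' (n + 1) := by
  obtain ⟨m, hm, h⟩ := h
  exact ⟨m + 1, by omega, .ite_true hc h⟩

theorem ExecLe.ite_false {c : (R → Option Bool) → Bool} {p q : Prog R} {s s' : Sto R} {n : ℕ}
    (hc : c (tops s) = false) (h : ExecLe q s s' n) : ExecLe (.ite c p q) s s' (n + 1) := by
  obtain ⟨m, hm, h⟩ := h
  exact ⟨m + 1, by omega, .ite_false hc h⟩

theorem ExecLe.loop_done {c : (R → Option Bool) → Bool} {p : Prog R} {s : Sto R}
    (hc : c (tops s) = false) : ExecLe (.loop c p) s s 1 := ⟨1, le_rfl, .loop_done hc⟩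

theorem ExecLe.loop_step {c : (R → Option Bool) → Bool} {p : Prog R} {s s' s'' : Sto R} {m n : ℕ}
    (hc : c (tops s) = true) (h1 : ExecLe p s s' m) (h2 : ExecLe (.loop c p) s' s'' n) :
    ExecLe (.loop c p) s s'' (m + n + 1) := by
  obtain ⟨m1, hm1, h1⟩ := h1
  obtain ⟨m2, hm2, h2⟩ := h2
  exact ⟨m1 + m2 + 1, by omega, .loop_step hc h1 h2⟩

/-- push all elements of a list: the last element of `l` is pushed first, so that the
content becomes `l ++ old` -/
def pushes (r : R) : List Bool → Prog R
  | [] => .skip
  | a :: l => .seq (pushes r l) (.push r a)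

theorem pushes_exec (r : R) (l : List Bool) (s : Sto R) :
    ExecLe (pushes r l) s (update s r (l ++ s r)) (l.length + 1) := by
  induction l with
  | nil =>
    have : update s r ([] ++ s r) = s := by simp
    rw [this]
    exact ExecLe.skip s
  | cons a l ih =>
    have h2 := ExecLe.push r a (update s r (l ++ s r))
    have := ih.seq h2
    simp only [update_self, update_idem] at this
    exact this.mono (by simp)

/-- clear a register -/
def clear (r : R) : Prog R := .loop (fun t => (t r).isSome) (.pop r)

theorem clear_exec (r : R) (s : Sto R) :
    ExecLe (clear r) s (update s r []) (2 * (s r).length + 1) := by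
  generalize hl : s r = l
  induction l generalizing s with
  | nil =>
    have : update s r [] = s := by rw [← hl]; simp
    rw [this]
    exact ExecLe.loop_done (by simp [tops, hl])
  | cons a l ih =>
    have h1 := ExecLe.pop r s
    rw [hl] at h1
    have h2 := ih (update s r l) (by simp)
    have := ExecLe.loop_step (c := fun t => (t r).isSome) (by simp [tops, hl]) h1 h2
    simp only [update_idem] at this
    exact this.mono (by simp; omega)

/-- move the top bit of `a` to `b` -/
def mv (a b : R) : Prog R :=
  .ite (fun t => t a == some true) (.seq (.pop a) (.push b true))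
    (.ite (fun t => t a == some false) (.seq (.pop a) (.push b false)) .skip)

theorem mv_exec {a b : R} (hab : a ≠ b) (s : Sto R) (u : Bool) (l : List Bool) (h : s a = u :: l) :
    ExecLe (mv a b) s (update (update s a l) b (u :: s b)) 4 := by
  unfold mv
  cases u
  · apply (ExecLe.ite_false (n := 3) (by simp [tops, h]) _).mono le_rfl
    apply (ExecLe.ite_true (n := 2) (by simp [tops, h]) _).mono le_rfl
    have h1 := ExecLe.pop a s
    rw [h] at h1
    have := h1.seq (ExecLe.push b false _)
    rwa [List.tail_cons, update_of_ne hab.symm] at this
  · apply (ExecLe.ite_true (n := 2) (by simp [tops, h]) _).mono (by omega)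
    have h1 := ExecLe.pop a s
    rw [h] at h1
    have := h1.seq (ExecLe.push b true _)
    rwa [List.tail_cons, update_of_ne hab.symm] at this

/-- move all of `a` on top of `b` (reversing) -/
def mvAll (a b : R) : Prog R := .loop (fun t => (t a).isSome) (mv a b)

theorem mvAll_exec {a b : R} (hab : a ≠ b) (s : Sto R) :
    ExecLe (mvAll a b) s (update (update s a []) b ((s a).reverse ++ s b))
      (5 * (s a).length + 1) := by
  generalize hl : s a = l
  induction l generalizing s with
  | nil =>
    have : update (update s a []) b ([].reverse ++ s b) = s := by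
      rw [List.reverse_nil, List.nil_append, ← hl, update_eq_self, update_eq_self]
    rw [this]
    exact ExecLe.loop_done (by simp [tops, hl])
  | cons u l ih =>
    have h1 := mv_exec hab s u l hl
    have h2 := ih (update (update s a l) b (u :: s b)) (by rw [update_of_ne hab, update_self])
    have := ExecLe.loop_step (c := fun t => (t a).isSome) (by simp [tops, hl]) h1 h2
    have e : update (update (update (update s a l) b (u :: s b)) a []) b
        (l.reverse ++ update (update s a l) b (u :: s b) b)
        = update (update s a []) b ((u :: l).reverse ++ s b) := by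
      rw [update_self, update_comm hab.symm, update_idem, update_idem]
      simp
    rw [e] at this
    exact this.mono (by simp; omega)

/-- the main loop of the comparison of two registers -/
def syncLoop (a b ta tb : R) : Prog R :=
  .loop (fun t => (t a).isSome && (t b).isSome) (.seq (mv a ta) (mv b tb))

/-- a store with four registers overwritten -/
def up4 (s : Sto R) (a b c d : R) (A B C D : List Bool) : Sto R :=
  update (update (update (update s a A) b B) c C) d D

structure Distinct4 (a b c d : R) : Prop where
  ab : a ≠ b
  ac : a ≠ c
  ad : a ≠ d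
  bc : b ≠ c
  bd : b ≠ d
  cd : c ≠ d

section four

variable {a b c d : R} (h : Distinct4 a b c d) (s : Sto R) (A B C D : List Bool)
include h

theorem up4_a : up4 s a b c d A B C D a = A := by
  simp [up4, update_of_ne h.ad, update_of_ne h.ac, update_of_ne h.ab]
theorem up4_b : up4 s a b c d A B C D b = B := by
  simp [up4, update_of_ne h.bd, update_of_ne h.bc]
theorem up4_c : up4 s a b c d A B C D c = C := by
  simp [up4, update_of_ne h.cd]
omit h in
theorem up4_d : up4 s a b c d A B C D d = D := by
  simp [up4]
omit h in
theorem up4_self : up4 s a b c d (s a) (s b) (s c) (s d) = s := by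
  simp [up4]

theorem up4_upd_a (A' : List Bool) :
    update (up4 s a b c d A B C D) a A' = up4 s a b c d A' B C D := by
  unfold up4
  rw [update_comm h.ad.symm, update_comm h.ac.symm, update_comm h.ab.symm, update_idem]
theorem up4_upd_b (B' : List Bool) :
    update (up4 s a b c d A B C D) b B' = up4 s a b c d A B' C D := by
  unfold up4
  rw [update_comm h.bd.symm, update_comm h.bc.symm, update_idem]
theorem up4_upd_c (C' : List Bool) :
    update (up4 s a b c d A B C D) c C' = up4 s a b c d A B C' D := by
  unfold up4
  rw [update_comm h.cd.symm, update_idem]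
omit h in
theorem up4_upd_d (D' : List Bool) :
    update (up4 s a b c d A B C D) d D' = up4 s a b c d A B C D' := by
  unfold up4
  rw [update_idem]

theorem syncLoop_exec :
    ExecLe (syncLoop a b c d) (up4 s a b c d A B C D)
      (up4 s a b c d (A.drop (min A.length B.length)) (B.drop (min A.length B.length))
        ((A.take (min A.length B.length)).reverse ++ C)
        ((B.take (min A.length B.length)).reverse ++ D))
      (9 * min A.length B.length + 1) := by
  induction A generalizing B C D with
  | nil =>
    simp only [List.length_nil, Nat.zero_min, List.drop_zero, List.take_zero, List.reverse_nil,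
      List.nil_append]
    exact ExecLe.loop_done (by simp [tops, up4_a h])
  | cons u A ih =>
    cases B with
    | nil =>
      simp only [List.length_nil, Nat.min_zero, List.drop_zero, List.take_zero, List.reverse_nil,
        List.nil_append]
      exact ExecLe.loop_done (by simp [tops, up4_b h])
    | cons w B =>
      have h1 := mv_exec h.ac (up4 s a b c d (u :: A) (w :: B) C D) u A (up4_a h _ _ _ _ _)
      rw [up4_upd_a h, up4_c h, up4_upd_c h] at h1
      have h2 := mv_exec h.bd (up4 s a b c d A (w :: B) (u :: C) D) w B (up4_b h _ _ _ _ _)
      rw [up4_upd_b h, up4_d, up4_upd_d] at h2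
      have h3 := ih B (u :: C) (w :: D)
      have := ExecLe.loop_step (c := fun t => (t a).isSome && (t b).isSome)
        (by simp [tops, up4_a h, up4_b h]) (h1.seq h2) h3
      have e : min (u :: A).length (w :: B).length = min A.length B.length + 1 := by
        simp only [List.length_cons]; omega
      rw [e]
      simp only [List.drop_succ_cons, List.take_succ_cons, List.reverse_cons, List.append_assoc,
        List.cons_append, List.nil_append]
      exact this.mono (by omega)

end four

/-- branch on the comparison of two registers -/
def sync (a b c d : R) (cond : Option Bool → Option Bool → Bool) (p q : Prog R) : Prog R :=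
  .seq (syncLoop a b c d)
    (.ite (fun t => cond (t a) (t b))
      (.seq (.seq (mvAll c a) (mvAll d b)) p)
      (.seq (.seq (mvAll c a) (mvAll d b)) q))

/-- the semantics of the test in `sync` -/
def syncVal (cond : Option Bool → Option Bool → Bool) (A B : List Bool) : Bool :=
  cond (A.drop (min A.length B.length)).head? (B.drop (min A.length B.length)).head?

theorem sync_exec {a b c d : R} (h : Distinct4 a b c d) {cond : Option Bool → Option Bool → Bool}
    {p q : Prog R} {s s' : Sto R} {n : ℕ} (hc : s c = []) (hd : s d = [])
    (hp : ExecLe (if syncVal cond (s a) (s b) then p else q) s s' n) :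
    ExecLe (sync a b c d cond p q) s s' (n + (19 * min (s a).length (s b).length + 4)) := by
  set A := s a with hA
  set B := s b with hB
  have h0 := syncLoop_exec h s A B [] []
  have e0 : up4 s a b c d A B [] [] = s := by
    have := up4_self (a := a) (b := b) (c := c) (d := d) s
    rwa [hc, hd] at this
  rw [e0] at h0
  set k := min A.length B.length with hk
  have h1 := mvAll_exec (a := c) (b := a) h.ac.symm
    (up4 s a b c d (A.drop k) (B.drop k) ((A.take k).reverse ++ []) ((B.take k).reverse ++ []))
  rw [up4_c h, up4_a h, up4_upd_c h, up4_upd_a h] at h1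
  simp only [List.append_nil, List.reverse_reverse, List.take_append_drop,
    List.length_reverse] at h1
  have h2 := mvAll_exec (a := d) (b := b) h.bd.symm
    (up4 s a b c d A (B.drop k) [] (B.take k).reverse)
  rw [up4_d, up4_b h, up4_upd_d, up4_upd_b h] at h2
  simp only [List.reverse_reverse, List.take_append_drop, List.length_reverse, e0] at h2
  have hlA : (A.take k).length = k := by
    rw [List.length_take]; omega
  have hlB : (B.take k).length = k := by
    rw [List.length_take]; omega
  rw [hlA] at h1
  rw [hlB] at h2
  have h12 := h1.seq h2
  simp only [List.append_nil] at h0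
  by_cases hcond : syncVal cond A B = true
  · rw [if_pos hcond] at hp
    have h3 := ExecLe.ite_true (c := fun t => cond (t a) (t b))
      (q := (.seq (.seq (mvAll c a) (mvAll d b)) q))
      (by simpa [tops, up4_a h, up4_b h, syncVal] using hcond) (h12.seq hp)
    exact (h0.seq h3).mono (by omega)
  · rw [if_neg hcond] at hp
    have hcond' : syncVal cond A B = false := by simpa using hcond
    have h3 := ExecLe.ite_false (c := fun t => cond (t a) (t b))
      (p := (.seq (.seq (mvAll c a) (mvAll d b)) p))
      (by simpa [tops, up4_a h, up4_b h, syncVal] using hcond') (h12.seq hp)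
    exact (h0.seq h3).mono (by omega)

end Prog

end Pool.Agent.Helper79.Complexity
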