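import Mathlib

/-!
Self-delimiting encodings of lists, numbers and rationals.
-/

namespace Pool.Agent.Helper79.Complexity

open Computability

/-- Self-delimiting encoding of a list, given self-delimiting encodings of its entries: each
entry is preceded by `true`, and the list is ended by `false`. -/
def encList {α : Type*} (f : α → List Bool) (l : List α) : List Bool :=
  l.flatMap (fun a => true :: f a) ++ [false]

/-- Self-delimiting encoding of a natural number, written in binary. -/
def encNat (m : ℕ) : List Bool := encList (fun b => [b]) (encodeNat m)

/-- Self-delimiting encoding of a nonnegative rational number: numerator and denominator of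
its reduced fraction, written in binary. -/
def encRat (r : ℚ≥0) : List Bool := encNat r.num ++ encNat r.den

/-- the encoding `f` is uniquely readable from the left -/
def UniqRead {α : Type*} (f : α → List Bool) : Prop :=
  ∀ a b r s, f a ++ r = f b ++ s → a = b ∧ r = s

theorem UniqRead.encList {α : Type*} {f : α → List Bool} (hf : UniqRead f) :
    UniqRead (encList f) := by
  intro l l' r s h
  induction l generalizing l' with
  | nil =>
    cases l' with
    | nil =>
      simp [Complexity.encList] at h
      exact ⟨rfl, h⟩
    | cons b l' => simp [Complexity.encList] at h
  | cons a l ih =>
    cases l' with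
    | nil => simp [Complexity.encList] at h
    | cons b l' =>
      simp only [Complexity.encList, List.flatMap_cons, List.cons_append, List.append_assoc,
        List.cons.injEq, true_and] at h
      obtain ⟨h1, h2⟩ := hf _ _ _ _ h
      have h3 : Complexity.encList f l ++ r = Complexity.encList f l' ++ s := by
        simp only [Complexity.encList, List.append_assoc]
        exact h2
      obtain ⟨h4, h5⟩ := ih l' h3
      exact ⟨by rw [h1, h4], h5⟩

theorem uniqRead_encNat : UniqRead encNat := by
  intro a b r s h
  have hb : UniqRead (fun b : Bool => [b]) := by
    intro a b r s h
    simpa using h
  obtain ⟨h1, h2⟩ := hb.encList _ _ _ _ h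
  refine ⟨?_, h2⟩
  have := congrArg decodeNat h1
  simpa using this

theorem uniqRead_encRat : UniqRead encRat := by
  intro a b r s h
  simp only [encRat, List.append_assoc] at h
  obtain ⟨h1, h2⟩ := uniqRead_encNat _ _ _ _ h
  obtain ⟨h3, h4⟩ := uniqRead_encNat _ _ _ _ h2
  exact ⟨NNRat.ext_num_den h1 h3, h4⟩

/-- An injective map to bit strings is an encoding in the sense of Mathlib. -/
noncomputable def encodingOfInjective {α : Type} (f : α → List Bool)
    (hf : Function.Injective f) : Encoding α Bool where
  encode := f
  decode := Function.partialInv f
  decode_encode x := Function.partialInv_left hf x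

end Pool.Agent.Helper79.Complexity
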