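import Mathlib

/-!
Micro-steps of TM2 machines.
-/

namespace Pool.Agent.Helper79.Complexity

open Turing Function

section micro

variable {K : Type} [DecidableEq K] {Γ : K → Type} {Λ σ : Type}

/-- micro configuration -/
structure MC (Γ : K → Type) (Λ σ : Type) where
  q : Option (TM2.Stmt Γ Λ σ)
  v : σ
  S : ∀ k, List (Γ k)

/-- next control state -/
def nctl (M : Λ → TM2.Stmt Γ Λ σ) :
    Option (TM2.Stmt Γ Λ σ) → σ → (∀ k, Option (Γ k)) → Option (TM2.Stmt Γ Λ σ) × σ
  | none, v, _ => (none, v)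
  | some (.push _ _ q), v, _ => (some q, v)
  | some (.peek k f q), v, t => (some q, f v (t k))
  | some (.pop k f q), v, t => (some q, f v (t k))
  | some (.load a q), v, _ => (some q, a v)
  | some (.branch f q1 q2), v, _ => (some (cond (f v) q1 q2), v)
  | some (.goto f), v, _ => (some (M (f v)), v)
  | some .halt, v, _ => (none, v)

/-- stack action: `none` is no action, `some ⟨k, some a⟩` is pushing `a` on `k`,
`some ⟨k, none⟩` is popping from `k` -/
def act : Option (TM2.Stmt Γ Λ σ) → σ → Option (Σ k, Option (Γ k))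
  | some (.push k f _), v => some ⟨k, some (f v)⟩
  | some (.pop k _ _), _ => some ⟨k, none⟩
  | _, _ => none

/-- perform a stack action -/
def doAct : Option (Σ k, Option (Γ k)) → (∀ k, List (Γ k)) → (∀ k, List (Γ k))
  | none, S => S
  | some ⟨k, some a⟩, S => update S k (a :: S k)
  | some ⟨k, none⟩, S => update S k (S k).tail

/-- the micro-step function -/
def mstep (M : Λ → TM2.Stmt Γ Λ σ) (c : MC Γ Λ σ) : MC Γ Λ σ :=
  ⟨(nctl M c.q c.v (fun k => (c.S k).head?)).1, (nctl M c.q c.v (fun k => (c.S k).head?)).2,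
    doAct (act c.q c.v) c.S⟩

/-- the micro configuration of a configuration -/
def toMC (M : Λ → TM2.Stmt Γ Λ σ) (c : TM2.Cfg Γ Λ σ) : MC Γ Λ σ :=
  ⟨c.l.map M, c.var, c.stk⟩

/-- depth of a statement -/
def depth : TM2.Stmt Γ Λ σ → ℕ
  | .push _ _ q => depth q + 1
  | .peek _ _ q => depth q + 1
  | .pop _ _ q => depth q + 1
  | .load _ q => depth q + 1
  | .branch _ q1 q2 => max (depth q1) (depth q2) + 1
  | .goto _ => 1
  | .halt => 1

theorem stepAux_micro (M : Λ → TM2.Stmt Γ Λ σ) (q : TM2.Stmt Γ Λ σ) (v : σ)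
    (S : ∀ k, List (Γ k)) :
    ∃ n, n ≤ depth q ∧ (mstep M)^[n] ⟨some q, v, S⟩ = toMC M (TM2.stepAux q v S) := by
  induction q generalizing v S with
  | push k f q ih =>
    obtain ⟨n, hn, h⟩ := ih v (update S k (f v :: S k))
    refine ⟨n + 1, by simp only [depth]; omega, ?_⟩
    rw [iterate_succ_apply, TM2.stepAux, ← h]
    rfl
  | peek k f q ih =>
    obtain ⟨n, hn, h⟩ := ih (f v (S k).head?) S
    refine ⟨n + 1, by simp only [depth]; omega, ?_⟩
    rw [iterate_succ_apply, TM2.stepAux, ← h]
    rfl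
  | pop k f q ih =>
    obtain ⟨n, hn, h⟩ := ih (f v (S k).head?) (update S k (S k).tail)
    refine ⟨n + 1, by simp only [depth]; omega, ?_⟩
    rw [iterate_succ_apply, TM2.stepAux, ← h]
    rfl
  | load a q ih =>
    obtain ⟨n, hn, h⟩ := ih (a v) S
    refine ⟨n + 1, by simp only [depth]; omega, ?_⟩
    rw [iterate_succ_apply, TM2.stepAux, ← h]
    rfl
  | branch f q1 q2 ih1 ih2 =>
    cases hf : f v with
    | true =>
      obtain ⟨n, hn, h⟩ := ih1 v S
      refine ⟨n + 1, by simp only [depth]; omega, ?_⟩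
      rw [iterate_succ_apply, TM2.stepAux, hf, cond_true, ← h]
      congr 1
      simp [mstep, nctl, act, doAct, hf]
    | false =>
      obtain ⟨n, hn, h⟩ := ih2 v S
      refine ⟨n + 1, by simp only [depth]; omega, ?_⟩
      rw [iterate_succ_apply, TM2.stepAux, hf, cond_false, ← h]
      congr 1
      simp [mstep, nctl, act, doAct, hf]
  | goto f =>
    exact ⟨1, le_rfl, rfl⟩
  | halt =>
    exact ⟨1, le_rfl, rfl⟩

theorem iterate_bind_none {α : Type*} (f : α → Option α) (n : ℕ) :
    (flip bind f)^[n] none = none := by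
  induction n with
  | zero => rfl
  | succ n ih => rw [iterate_succ_apply]; exact ih

theorem steps_micro (M : Λ → TM2.Stmt Γ Λ σ) (D : ℕ) (hD : ∀ l, depth (M l) ≤ D) (n : ℕ)
    (c c' : TM2.Cfg Γ Λ σ) (h : (flip bind (TM2.step M))^[n] (some c) = some c') :
    ∃ n', n' ≤ D * n ∧ (mstep M)^[n'] (toMC M c) = toMC M c' := by
  induction n generalizing c with
  | zero =>
    simp only [iterate_zero, id_eq, Option.some.injEq] at h
    subst h
    exact ⟨0, by simp, rfl⟩
  | succ n ih =>
    rw [iterate_succ_apply] at h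
    obtain ⟨l, v, S⟩ := c
    cases l with
    | none =>
      exfalso
      have : flip bind (TM2.step M) (some (⟨none, v, S⟩ : TM2.Cfg Γ Λ σ)) = none := rfl
      rw [this, iterate_bind_none] at h
      simp at h
    | some l =>
      have : flip bind (TM2.step M) (some (⟨some l, v, S⟩ : TM2.Cfg Γ Λ σ))
        = some (TM2.stepAux (M l) v S) := rfl
      rw [this] at h
      obtain ⟨n1, hn1, h1⟩ := ih _ h
      obtain ⟨n2, hn2, h2⟩ := stepAux_micro M (M l) v S
      refine ⟨n1 + n2, ?_, ?_⟩
      · have := hD l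
        rw [Nat.mul_succ]
        omega
      · rw [iterate_add_apply]
        have : toMC M (⟨some l, v, S⟩ : TM2.Cfg Γ Λ σ) = ⟨some (M l), v, S⟩ := rfl
        rw [this, h2, h1]

theorem mstep_halt (M : Λ → TM2.Stmt Γ Λ σ) (c : MC Γ Λ σ) (h : c.q = none) : mstep M c = c := by
  obtain ⟨q, v, S⟩ := c
  simp only at h
  subst h
  rfl

theorem iterate_halt (M : Λ → TM2.Stmt Γ Λ σ) (c : MC Γ Λ σ) (h : c.q = none) (n : ℕ) :
    (mstep M)^[n] c = c := by
  induction n with
  | zero => rfl
  | succ n ih => rw [iterate_succ_apply, mstep_halt M c h, ih]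

theorem height_mstep (M : Λ → TM2.Stmt Γ Λ σ) (c : MC Γ Λ σ) (k : K) :
    ((mstep M c).S k).length ≤ (c.S k).length + 1 := by
  simp only [mstep]
  generalize act c.q c.v = a
  match a with
  | none => simp [doAct]
  | some ⟨k', some x⟩ =>
    by_cases h : k = k'
    · subst h; simp [doAct]
    · simp [doAct, update_of_ne h]
  | some ⟨k', none⟩ =>
    by_cases h : k = k'
    · subst h; simp [doAct]; omega
    · simp [doAct, update_of_ne h]

theorem height_iterate (M : Λ → TM2.Stmt Γ Λ σ) (c : MC Γ Λ σ) (k : K) (n : ℕ) :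
    (((mstep M)^[n] c).S k).length ≤ (c.S k).length + n := by
  induction n with
  | zero => simp
  | succ n ih =>
    rw [iterate_succ_apply']
    have := height_mstep M ((mstep M)^[n] c) k
    omega

/-! ### Finiteness -/

/-- list of substatements -/
def subs : TM2.Stmt Γ Λ σ → List (TM2.Stmt Γ Λ σ)
  | .push k f q => .push k f q :: subs q
  | .peek k f q => .peek k f q :: subs q
  | .pop k f q => .pop k f q :: subs q
  | .load a q => .load a q :: subs q
  | .branch f q1 q2 => .branch f q1 q2 :: (subs q1 ++ subs q2)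
  | .goto f => [.goto f]
  | .halt => [.halt]

omit [DecidableEq K] in
theorem subs_self (q : TM2.Stmt Γ Λ σ) : q ∈ subs q := by
  cases q <;> simp [subs]

/-- the set of statements occurring in the machine -/
def stmtSet (M : Λ → TM2.Stmt Γ Λ σ) : Set (Option (TM2.Stmt Γ Λ σ)) :=
  {none} ∪ ⋃ l : Λ, some '' {q | q ∈ subs (M l)}

omit [DecidableEq K] in
theorem stmtSet_finite [Finite Λ] (M : Λ → TM2.Stmt Γ Λ σ) : (stmtSet M).Finite := by
  apply (Set.finite_singleton none).union
  apply Set.finite_iUnion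
  intro l
  exact (List.finite_toSet _).image _

omit [DecidableEq K] in
theorem none_mem_stmtSet (M : Λ → TM2.Stmt Γ Λ σ) : none ∈ stmtSet M := by simp [stmtSet]

omit [DecidableEq K] in
theorem some_mem_stmtSet {M : Λ → TM2.Stmt Γ Λ σ} {q : TM2.Stmt Γ Λ σ} :
    some q ∈ stmtSet M ↔ ∃ l, q ∈ subs (M l) := by
  simp [stmtSet]

omit [DecidableEq K] in
/-- the children of a statement, as a relation -/
theorem subs_trans {q q' q0 : TM2.Stmt Γ Λ σ} (h1 : q' ∈ subs q) (h2 : q ∈ subs q0) :
    q' ∈ subs q0 := by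
  induction q0 with
  | push k f q1 ih =>
    simp only [subs, List.mem_cons] at h2 ⊢
    rcases h2 with rfl | h2
    · simpa [subs] using h1
    · exact Or.inr (ih h2)
  | peek k f q1 ih =>
    simp only [subs, List.mem_cons] at h2 ⊢
    rcases h2 with rfl | h2
    · simpa [subs] using h1
    · exact Or.inr (ih h2)
  | pop k f q1 ih =>
    simp only [subs, List.mem_cons] at h2 ⊢
    rcases h2 with rfl | h2
    · simpa [subs] using h1
    · exact Or.inr (ih h2)
  | load a q1 ih =>
    simp only [subs, List.mem_cons] at h2 ⊢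
    rcases h2 with rfl | h2
    · simpa [subs] using h1
    · exact Or.inr (ih h2)
  | branch f q1 q2 ih1 ih2 =>
    simp only [subs, List.mem_cons, List.mem_append] at h2 ⊢
    rcases h2 with rfl | h2 | h2
    · simpa [subs] using h1
    · exact Or.inr (Or.inl (ih1 h2))
    · exact Or.inr (Or.inr (ih2 h2))
  | goto f =>
    simp only [subs, List.mem_singleton] at h2
    subst h2
    exact h1
  | halt =>
    simp only [subs, List.mem_singleton] at h2
    subst h2
    exact h1

omit [DecidableEq K] in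
theorem nctl_mem {M : Λ → TM2.Stmt Γ Λ σ} {q : Option (TM2.Stmt Γ Λ σ)} (hq : q ∈ stmtSet M)
    (v : σ) (t : ∀ k, Option (Γ k)) : (nctl M q v t).1 ∈ stmtSet M := by
  cases q with
  | none => exact hq
  | some q =>
    obtain ⟨l, hl⟩ := some_mem_stmtSet.1 hq
    cases q with
    | push k f q1 =>
      exact some_mem_stmtSet.2 ⟨l, subs_trans (by simp [subs, subs_self]) hl⟩
    | peek k f q1 =>
      exact some_mem_stmtSet.2 ⟨l, subs_trans (by simp [subs, subs_self]) hl⟩
    | pop k f q1 =>
      exact some_mem_stmtSet.2 ⟨l, subs_trans (by simp [subs, subs_self]) hl⟩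
    | load a q1 =>
      exact some_mem_stmtSet.2 ⟨l, subs_trans (by simp [subs, subs_self]) hl⟩
    | branch f q1 q2 =>
      refine some_mem_stmtSet.2 ⟨l, subs_trans (q := .branch f q1 q2) ?_ hl⟩
      cases f v <;> simp [subs, subs_self]
    | goto f => exact some_mem_stmtSet.2 ⟨f v, subs_self _⟩
    | halt => exact none_mem_stmtSet M

/-- the symbols that may occur in the stack `k` -/
def symSet (M : Λ → TM2.Stmt Γ Λ σ) (I : ∀ k, Set (Γ k)) (k : K) : Set (Γ k) :=
  I k ∪ {a | ∃ q ∈ stmtSet M, ∃ v : σ, act q v = some ⟨k, some a⟩}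

omit [DecidableEq K] in
theorem symSet_finite [Finite Λ] [Finite σ] (M : Λ → TM2.Stmt Γ Λ σ) (I : ∀ k, Set (Γ k))
    (hI : ∀ k, (I k).Finite) (k : K) : (symSet M I k).Finite := by
  apply (hI k).union
  have h1 : ((fun p : Option (TM2.Stmt Γ Λ σ) × σ => act p.1 p.2) ''
      (stmtSet M ×ˢ Set.univ)).Finite :=
    ((stmtSet_finite M).prod Set.finite_univ).image _
  have h2 : Function.Injective (fun a : Γ k => (some ⟨k, some a⟩ : Option (Σ k, Option (Γ k)))) := by
    intro a b h
    simpa using h
  apply (h1.preimage h2.injOn).subset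
  rintro a ⟨q, hq, v, h⟩
  exact ⟨(q, v), ⟨hq, Set.mem_univ _⟩, h⟩

/-- all the data of a micro configuration are in the finite sets -/
def MC.Good (M : Λ → TM2.Stmt Γ Λ σ) (I : ∀ k, Set (Γ k)) (c : MC Γ Λ σ) : Prop :=
  c.q ∈ stmtSet M ∧ ∀ k, ∀ a ∈ c.S k, a ∈ symSet M I k

theorem MC.Good.mstep {M : Λ → TM2.Stmt Γ Λ σ} {I : ∀ k, Set (Γ k)} {c : MC Γ Λ σ}
    (h : c.Good M I) : (mstep M c).Good M I := by
  refine ⟨nctl_mem h.1 _ _, ?_⟩
  intro k a ha
  have h2 := h.2
  have h1 := h.1
  simp only [Complexity.mstep] at ha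
  have key : ∀ A, act c.q c.v = A → a ∈ doAct A c.S k → a ∈ symSet M I k := by
    intro A hA ha
    match A with
    | none => exact h2 k a ha
    | some ⟨k', some x⟩ =>
      by_cases hk : k = k'
      · subst hk
        simp only [doAct, update_self, List.mem_cons] at ha
        rcases ha with rfl | ha
        · exact Or.inr ⟨c.q, h1, c.v, hA⟩
        · exact h2 k a ha
      · simp only [doAct, update_of_ne hk] at ha
        exact h2 k a ha
    | some ⟨k', none⟩ =>
      by_cases hk : k = k'
      · subst hk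
        simp only [doAct, update_self] at ha
        exact h2 k a (List.mem_of_mem_tail ha)
      · simp only [doAct, update_of_ne hk] at ha
        exact h2 k a ha
  exact key _ rfl ha

theorem MC.Good.iterate {M : Λ → TM2.Stmt Γ Λ σ} {I : ∀ k, Set (Γ k)} {c : MC Γ Λ σ}
    (h : c.Good M I) (n : ℕ) : ((Complexity.mstep M)^[n] c).Good M I := by
  induction n with
  | zero => exact h
  | succ n ih => rw [iterate_succ_apply']; exact ih.mstep

end micro

end Pool.Agent.Helper79.Complexity
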