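import Pool.Agent.Helper79.Complexity.Micro

/-!
The tableau of a computation as a locally checkable colouring of a grid.
-/

namespace Pool.Agent.Helper79.Complexity

open Turing Function

/-- the class of a cell of the grid -/
structure Cls where
  top : Bool
  bot : Bool
  left : Bool
  right : Bool
  sym : Option (Option Bool)

/-- the class of a column: a letter of the input, a guessed letter, or blank -/
def symCls (x : List Bool) (q i : ℕ) : Option (Option Bool) :=
  match x[i]? with
  | some b => some (some b)
  | none => if i < q then some none else none

/-- the class of the cell in row `t` and column `i` of a `T × T` grid -/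
def cls (x : List Bool) (T q t i : ℕ) : Cls :=
  ⟨decide (t = 0), decide (t + 1 = T), decide (i = 0), decide (i + 1 = T), symCls x q i⟩

/-- `f` is a colouring of the `T × T` grid satisfying the local rule `W` in every window
and the rule `U` in every cell -/
def Grid {C : Type} (W : C → C → C → C → Prop) (U : Cls → C → Prop) (x : List Bool) (T q : ℕ)
    (f : ℕ → ℕ → C) : Prop :=
  (∀ t i, t + 1 < T → i + 1 < T → W (f t i) (f t (i + 1)) (f (t + 1) i) (f (t + 1) (i + 1))) ∧
  ∀ t i, t < T → i < T → U (cls x T q t i) (f t i)

section tableau

variable {K : Type} [DecidableEq K] {Γ : K → Type} {Λ σ : Type}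

/-- colours -/
@[ext]
structure Col (Γ : K → Type) (Λ σ : Type) where
  q : Option (TM2.Stmt Γ Λ σ)
  v : σ
  t : ∀ k, Option (Γ k)
  s : ∀ k, Option (Γ k)

/-- the colour of column `i` in the row of a micro configuration -/
def MC.col (c : MC Γ Λ σ) (i : ℕ) : Col Γ Λ σ :=
  ⟨c.q, c.v, fun k => (c.S k).head?, fun k => (c.S k)[i]?⟩

/-- the local rule for the stacks -/
def actRule : Option (Σ k, Option (Γ k)) → Col Γ Λ σ → Col Γ Λ σ → Col Γ Λ σ → Col Γ Λ σ → Prop
  | none, a, b, c, d => ∀ k, c.s k = a.s k ∧ d.s k = b.s k
  | some ⟨k', some x⟩, a, b, c, d => (d.s k' = a.s k' ∧ c.t k' = some x) ∧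
      ∀ k, k ≠ k' → c.s k = a.s k ∧ d.s k = b.s k
  | some ⟨k', none⟩, a, b, c, d => c.s k' = b.s k' ∧
      ∀ k, k ≠ k' → c.s k = a.s k ∧ d.s k = b.s k

/-- the local rule for a window -/
structure WRule (M : Λ → TM2.Stmt Γ Λ σ) (a b c d : Col Γ Λ σ) : Prop where
  abq : a.q = b.q
  abv : a.v = b.v
  abt : a.t = b.t
  cdq : c.q = d.q
  cdv : c.v = d.v
  cdt : c.t = d.t
  acq : c.q = (nctl M a.q a.v a.t).1
  acv : c.v = (nctl M a.q a.v a.t).2
  blank : ∀ k, a.s k = none → b.s k = none
  stk : actRule (act a.q a.v) a b c d

/-- the rule for a cell -/
structure URule (k₀ k₁ : K) (M : Λ → TM2.Stmt Γ Λ σ) (main : Λ) (v0 : σ)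
    (al : Bool ⊕ Bool → Γ k₀) (be : Bool → Γ k₁) (κ : Cls) (c : Col Γ Λ σ) : Prop where
  left : κ.left = true → c.s = c.t
  right : κ.right = true → ∀ k, c.s k = none
  topq : κ.top = true → c.q = some (M main)
  topv : κ.top = true → c.v = v0
  tops : κ.top = true → ∀ k, k ≠ k₀ → c.s k = none
  top0 : κ.top = true → ∀ b, κ.sym = some (some b) → c.s k₀ = some (al (Sum.inl b))
  top1 : κ.top = true → κ.sym = some none → c.s k₀ = none ∨ ∃ b, c.s k₀ = some (al (Sum.inr b))
  top2 : κ.top = true → κ.sym = none → c.s k₀ = none
  acc : κ.bot = true → κ.left = true → c.s k₁ = some (be true)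

/-- the start configuration -/
def start (k₀ : K) (M : Λ → TM2.Stmt Γ Λ σ) (main : Λ) (v0 : σ) (L : List (Γ k₀)) : MC Γ Λ σ :=
  ⟨some (M main), v0, update (fun _ => []) k₀ L⟩

variable {k₀ k₁ : K} {M : Λ → TM2.Stmt Γ Λ σ} {main : Λ} {v0 : σ}
  {al : Bool ⊕ Bool → Γ k₀} {be : Bool → Γ k₁}

theorem extract_list {α : Type*} (g : ℕ → Option α) (T : ℕ)
    (h : ∀ i, i + 1 < T → g i = none → g (i + 1) = none) :
    ∃ L : List α, L.length ≤ T ∧ ∀ i, i < T → g i = L[i]? := by
  have key : ∀ j, j ≤ T → ∃ L : List α, L.length ≤ j ∧ ∀ i, i < j → g i = L[i]? := by
    intro j hj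
    induction j with
    | zero => exact ⟨[], by simp, by intro i hi; omega⟩
    | succ j ih =>
      obtain ⟨L, hL, hg⟩ := ih (by omega)
      by_cases hlen : L.length = j
      · cases hgj : g j with
        | none =>
          refine ⟨L, by omega, fun i hi => ?_⟩
          by_cases hij : i = j
          · subst hij
            rw [hgj, List.getElem?_eq_none (by omega)]
          · exact hg i (by omega)
        | some a =>
          refine ⟨L ++ [a], by simp; omega, fun i hi => ?_⟩
          by_cases hij : i = j
          · subst hij
            rw [hgj, List.getElem?_append_right (by omega)]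
            simp [hlen]
          · rw [List.getElem?_append_left (by omega)]
            exact hg i (by omega)
      · refine ⟨L, by omega, fun i hi => ?_⟩
        by_cases hij : i = j
        · subst hij
          rw [List.getElem?_eq_none (by omega)]
          obtain ⟨j', rfl⟩ : ∃ j', i = j' + 1 := ⟨i - 1, by omega⟩
          apply h j' (by omega)
          rw [hg j' (by omega), List.getElem?_eq_none (by omega)]
        · exact hg i (by omega)
  exact key T le_rfl

theorem symCls_lt {x : List Bool} {q i : ℕ} (hi : i < x.length) :
    symCls x q i = some (some x[i]) := by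
  simp [symCls, List.getElem?_eq_getElem hi]

theorem symCls_mid {x : List Bool} {q i : ℕ} (hi : x.length ≤ i) (hq : i < q) :
    symCls x q i = some none := by
  simp [symCls, List.getElem?_eq_none hi, hq]

theorem symCls_ge {x : List Bool} {q i : ℕ} (hi : x.length ≤ i) (hq : q ≤ i) :
    symCls x q i = none := by
  simp [symCls, List.getElem?_eq_none hi]
  omega

/-- the input word of the verifier -/
def inputWord (al : Bool ⊕ Bool → Γ k₀) (x y : List Bool) : List (Γ k₀) :=
  (x.map Sum.inl ++ y.map Sum.inr).map al

/-- every satisfying colouring is the tableau of a computation -/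
theorem grid_sound {x : List Bool} {T q : ℕ} (hxq : x.length ≤ q) (hqT : q < T) (hT : 2 ≤ T)
    {f : ℕ → ℕ → Col Γ Λ σ}
    (hf : Grid (WRule M) (URule k₀ k₁ M main v0 al be) x T q f) :
    ∃ y : List Bool, x.length + y.length ≤ q ∧
      (((mstep M)^[T - 1] (start k₀ M main v0 (inputWord al x y))).S k₁)[0]? = some (be true) := by
  obtain ⟨hW, hU⟩ := hf
  -- the first row
  obtain ⟨L, hL, hg⟩ := extract_list (fun i => (f 0 i).s k₀) T
    (fun i hi h => (hW 0 i (by omega) hi).blank k₀ h)
  have hLT : L.length ≤ q := by
    by_contra hcon
    have h1 := hg q hqT
    have h2 : (f 0 q).s k₀ = none := (hU 0 q (by omega) hqT).top2 (by simp [cls])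
      (by simp only [cls]; exact symCls_ge hxq le_rfl)
    rw [h2, List.getElem?_eq_getElem (by omega)] at h1
    exact absurd h1 (by simp)
  have hLx : ∀ i (hi : i < x.length), L[i]? = some (al (Sum.inl x[i])) := by
    intro i hi
    rw [← hg i (by omega)]
    exact (hU 0 i (by omega) (by omega)).top0 (by simp [cls]) _
      (by simp only [cls]; exact symCls_lt hi)
  have hLx' : x.length ≤ L.length := by
    by_contra hcon
    have := hLx L.length (by omega)
    rw [List.getElem?_eq_none le_rfl] at this
    exact absurd this (by simp)
  obtain ⟨y, hy⟩ : ∃ y : List Bool, y.map (fun b => al (Sum.inr b)) = L.drop x.length := by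
    have : L.drop x.length ∈ Set.range (List.map (fun b => al (Sum.inr b))) := by
      rw [Set.range_list_map]
      intro a ha
      obtain ⟨i, hi, rfl⟩ := List.getElem_of_mem ha
      rw [List.length_drop] at hi
      rw [List.getElem_drop]
      have h1 := hg (x.length + i) (by omega)
      have h2 := (hU 0 (x.length + i) (by omega) (by omega)).top1 (by simp [cls])
        (by simp only [cls]; exact symCls_mid (by omega) (by omega))
      rw [h1, List.getElem?_eq_getElem (by omega)] at h2
      rcases h2 with h2 | ⟨b, h2⟩
      · exact absurd h2 (by simp)
      · exact ⟨b, by simpa using h2.symm⟩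
    exact this
  have hLeq : L = inputWord al x y := by
    rw [inputWord, List.map_append, List.map_map, List.map_map]
    have h1 : L.take x.length = List.map (al ∘ Sum.inl) x := by
      apply List.ext_getElem?
      intro i
      by_cases hi : i < x.length
      · rw [List.getElem?_take_of_lt hi, hLx i hi]
        simp [hi]
      · rw [List.getElem?_eq_none (by rw [List.length_take]; omega),
          List.getElem?_eq_none (by simp; omega)]
    rw [← h1]
    change L = List.take x.length L ++ List.map (fun b => al (Sum.inr b)) y
    rw [hy, List.take_append_drop]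
  have hlen : x.length + y.length ≤ q := by
    have := congrArg List.length hLeq
    simp [inputWord] at this
    omega
  refine ⟨y, hlen, ?_⟩
  -- control data are constant along rows
  have hrow : ∀ t, t < T → ∀ i, i < T → (f t i).q = (f t 0).q ∧ (f t i).v = (f t 0).v ∧
      (f t i).t = (f t 0).t := by
    intro t ht i
    induction i with
    | zero => intro _; exact ⟨rfl, rfl, rfl⟩
    | succ i ih =>
      intro hi
      obtain ⟨h1, h2, h3⟩ := ih (by omega)
      by_cases ht' : t + 1 < T
      · have hw := hW t i ht' hi
        exact ⟨hw.abq.symm.trans h1, hw.abv.symm.trans h2, hw.abt.symm.trans h3⟩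
      · obtain ⟨t', rfl⟩ : ∃ t', t = t' + 1 := ⟨t - 1, by omega⟩
        have hw := hW t' i (by omega) hi
        exact ⟨hw.cdq.symm.trans h1, hw.cdv.symm.trans h2, hw.cdt.symm.trans h3⟩
  set c0 := start k₀ M main v0 (inputWord al x y) with hc0
  have main_claim : ∀ t, t < T → ∀ i, i < T → f t i = ((mstep M)^[t] c0).col i := by
    intro t
    induction t with
    | zero =>
      intro _
      have hs : ∀ i, i < T → (f 0 i).s = (c0.col i).s := by
        intro i hi
        funext k
        by_cases hk : k = k₀
        · subst hk
          have := hg i hi
          rw [this, hLeq]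
          simp [hc0, start, MC.col]
        · rw [(hU 0 i (by omega) hi).tops (by simp [cls]) k hk]
          simp [hc0, start, MC.col, update_of_ne hk]
      intro i hi
      obtain ⟨h1, h2, h3⟩ := hrow 0 (by omega) i hi
      have h4 : (f 0 0).t = (c0.col 0).s := by
        rw [← hs 0 (by omega)]
        exact ((hU 0 0 (by omega) (by omega)).left (by simp [cls])).symm
      apply Col.ext
      · exact (hU 0 i (by omega) hi).topq (by simp [cls])
      · exact (hU 0 i (by omega) hi).topv (by simp [cls])
      · rw [h3, h4]
        funext k
        simp [MC.col, List.head?_eq_getElem?]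
      · exact hs i hi
    | succ t ih =>
      intro ht
      have ih' := ih (by omega)
      set c := (mstep M)^[t] c0 with hc
      rw [iterate_succ_apply', ← hc]
      -- control
      have hq : ∀ i, i < T → (f (t + 1) i).q = (mstep M c).q ∧ (f (t + 1) i).v = (mstep M c).v := by
        have h0 : (f (t + 1) 0).q = (mstep M c).q ∧ (f (t + 1) 0).v = (mstep M c).v := by
          have hw := hW t 0 ht (by omega)
          rw [hw.acq, hw.acv, ih' 0 (by omega)]
          exact ⟨rfl, rfl⟩
        intro i hi
        obtain ⟨h1, h2, -⟩ := hrow (t + 1) ht i hi
        rw [h1, h2]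
        exact h0
      -- contents
      have keep : ∀ k i, i < T → (∀ j, j + 1 < T → (f (t + 1) j).s k = (f t j).s k ∧
          (f (t + 1) (j + 1)).s k = (f t (j + 1)).s k) → (f (t + 1) i).s k = (f t i).s k := by
        intro k i hi h
        by_cases hi' : i + 1 < T
        · exact (h i hi').1
        · obtain ⟨j, rfl⟩ : ∃ j, i = j + 1 := ⟨i - 1, by omega⟩
          exact (h j hi).2
      have hs : ∀ i, i < T → ∀ k, (f (t + 1) i).s k = ((mstep M c).S k)[i]? := by
        intro i hi k
        have hstk : ∀ j, j + 1 < T → actRule (act c.q c.v) (f t j) (f t (j + 1)) (f (t + 1) j)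
            (f (t + 1) (j + 1)) := by
          intro j hj
          have := (hW t j ht hj).stk
          have hq' : (f t j).q = c.q := by rw [ih' j (by omega)]; rfl
          have hv' : (f t j).v = c.v := by rw [ih' j (by omega)]; rfl
          rwa [hq', hv'] at this
        have hcs : ∀ j, j < T → ∀ k, (f t j).s k = (c.S k)[j]? := by
          intro j hj k
          rw [ih' j hj]; rfl
        have key : ∀ A, act c.q c.v = A → (f (t + 1) i).s k = (doAct A c.S k)[i]? := by
          intro A hA
          rw [hA] at hstk
          match A with
          | none =>
            rw [keep k i hi (fun j hj => hstk j hj k), hcs i hi k]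
            rfl
          | some ⟨k', some a⟩ =>
            by_cases hk : k = k'
            · subst hk
              simp only [doAct, update_self]
              cases i with
              | zero =>
                have h1 := (hU (t + 1) 0 ht (by omega)).left (by simp [cls])
                rw [h1]
                rw [(hstk 0 (by omega)).1.2]
                rfl
              | succ i =>
                rw [(hstk i hi).1.1, hcs i (by omega) k]
                rfl
            · simp only [doAct, update_of_ne hk]
              rw [keep k i hi (fun j hj => (hstk j hj).2 k hk), hcs i hi k]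
          | some ⟨k', none⟩ =>
            by_cases hk : k = k'
            · subst hk
              simp only [doAct, update_self]
              by_cases hi' : i + 1 < T
              · rw [(hstk i hi').1, hcs (i + 1) hi' k]
                simp
              · have h1 := (hU (t + 1) i ht hi).right (by simp [cls]; omega) k
                have h2 := (hU t i (by omega) hi).right (by simp [cls]; omega) k
                rw [h1]
                rw [hcs i hi k] at h2
                rw [List.getElem?_eq_none_iff] at h2
                rw [List.getElem?_eq_none]
                rw [List.length_tail]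
                omega
            · simp only [doAct, update_of_ne hk]
              rw [keep k i hi (fun j hj => (hstk j hj).2 k hk), hcs i hi k]
        exact key _ rfl
      intro i hi
      apply Col.ext
      · exact (hq i hi).1
      · exact (hq i hi).2
      · obtain ⟨-, -, h3⟩ := hrow (t + 1) ht i hi
        rw [h3]
        rw [← (hU (t + 1) 0 ht (by omega)).left (by simp [cls])]
        funext k
        rw [hs 0 (by omega) k]
        simp [MC.col, List.head?_eq_getElem?]
      · funext k
        exact hs i hi k
  have hacc := (hU (T - 1) 0 (by omega) (by omega)).acc (by simp [cls]; omega) (by simp [cls])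
  rw [main_claim (T - 1) (by omega) 0 (by omega)] at hacc
  exact hacc

/-- the tableau of a computation with small stacks is a satisfying colouring -/
theorem grid_complete {x y : List Bool} {T q : ℕ} (hxq : x.length + y.length ≤ q) 
    (hh : ∀ t, t < T → ∀ k, (((mstep M)^[t] (start k₀ M main v0 (inputWord al x y))).S k).length < T)
    (hacc : (((mstep M)^[T - 1] (start k₀ M main v0 (inputWord al x y))).S k₁)[0]?
      = some (be true)) :
    Grid (WRule M) (URule k₀ k₁ M main v0 al be) x T q
      (fun t i => ((mstep M)^[t] (start k₀ M main v0 (inputWord al x y))).col i) := by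
  set c0 := start k₀ M main v0 (inputWord al x y) with hc0
  constructor
  · intro t i _ _
    have hsucc : (mstep M)^[t + 1] c0 = mstep M ((mstep M)^[t] c0) := iterate_succ_apply' _ _ _
    beta_reduce
    rw [hsucc]
    set c := (mstep M)^[t] c0 with hc
    refine ⟨rfl, rfl, rfl, rfl, rfl, rfl, rfl, rfl, ?_, ?_⟩
    · intro k h
      simp only [MC.col] at h ⊢
      rw [List.getElem?_eq_none_iff] at h ⊢
      omega
    · simp only [MC.col, mstep]
      generalize act c.q c.v = A
      match A with
      | none => intro k; exact ⟨rfl, rfl⟩
      | some ⟨k', some a⟩ =>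
        refine ⟨⟨?_, ?_⟩, ?_⟩
        · simp [doAct]
        · simp [doAct]
        · intro k hk
          simp [doAct, update_of_ne hk]
      | some ⟨k', none⟩ =>
        refine ⟨?_, ?_⟩
        · simp [doAct]
        · intro k hk
          simp [doAct, update_of_ne hk]
  · intro t i ht hi
    constructor
    · intro h
      simp only [cls, decide_eq_true_eq] at h
      subst h
      funext k
      simp [MC.col, List.head?_eq_getElem?]
    · intro h k
      simp only [cls, decide_eq_true_eq] at h
      simp only [MC.col]
      rw [List.getElem?_eq_none_iff]
      have := hh t ht k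
      omega
    · intro h
      simp only [cls, decide_eq_true_eq] at h
      subst h
      rfl
    · intro h
      simp only [cls, decide_eq_true_eq] at h
      subst h
      rfl
    · intro h k hk
      simp only [cls, decide_eq_true_eq] at h
      subst h
      simp [MC.col, hc0, start, update_of_ne hk]
    · intro h b hb
      simp only [cls, decide_eq_true_eq] at h hb
      subst h
      have hlt : i < x.length := by
        by_contra hcon
        rw [symCls, List.getElem?_eq_none (by omega)] at hb
        simp only at hb
        split_ifs at hb <;> simp at hb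
      rw [symCls_lt hlt] at hb
      simp only [Option.some.injEq] at hb
      simp only [iterate_zero, id_eq, MC.col, hc0, start, update_self, inputWord]
      rw [List.getElem?_map, List.getElem?_append_left (by simpa using hlt)]
      simp [List.getElem?_eq_getElem hlt, hb]
    · intro h hb
      simp only [cls, decide_eq_true_eq] at h hb
      subst h
      have hlt : x.length ≤ i := by
        by_contra hcon
        rw [symCls_lt (by omega)] at hb
        simp at hb
      simp only [iterate_zero, id_eq, MC.col, hc0, start, update_self, inputWord]
      rw [List.getElem?_map, List.getElem?_append_right (by simpa using hlt)]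
      simp only [List.length_map, List.getElem?_map, Option.map_map, Option.map_eq_none_iff]
      cases h : y[i - x.length]? with
      | none => left; rfl
      | some b => right; exact ⟨b, rfl⟩
    · intro h hb
      simp only [cls, decide_eq_true_eq] at h hb
      subst h
      have hlt : x.length ≤ i := by
        by_contra hcon
        rw [symCls_lt (by omega)] at hb
        simp at hb
      have hq : q ≤ i := by
        by_contra hcon
        rw [symCls_mid hlt (by omega)] at hb
        simp at hb
      simp only [iterate_zero, id_eq, MC.col, hc0, start, update_self, inputWord]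
      rw [List.getElem?_eq_none]
      simp
      omega
    · intro h h'
      simp only [cls, decide_eq_true_eq] at h h'
      subst h'
      have : t = T - 1 := by omega
      subst this
      exact hacc

end tableau

end Pool.Agent.Helper79.Complexity
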