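import Pool.Agent.Helper79.Complexity.Defs
import Pool.Agent.Helper79.Complexity.Tableau

/-!
Every language in NP is described by locally checkable grid colourings.
-/

namespace Pool.Agent.Helper79.Complexity

open Turing Function Computability

section

variable {K : Type} {Γ : K → Type} {Λ σ : Type}

/-- the colours with entries in the finite sets of statements and symbols -/
def goodCol (M : Λ → TM2.Stmt Γ Λ σ) (I : ∀ k, Set (Γ k)) : Set (Col Γ Λ σ) :=
  {c | c.q ∈ stmtSet M ∧ (∀ k a, c.t k = some a → a ∈ symSet M I k) ∧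
    (∀ k a, c.s k = some a → a ∈ symSet M I k)}

theorem goodCol_finite [Finite K] [Finite Λ] [Finite σ] (M : Λ → TM2.Stmt Γ Λ σ)
    (I : ∀ k, Set (Γ k)) (hI : ∀ k, (I k).Finite) : (goodCol M I).Finite := by
  let A : ∀ k, Set (Option (Γ k)) := fun k => {none} ∪ some '' symSet M I k
  have hA : ∀ k, (A k).Finite := fun k =>
    (Set.finite_singleton none).union ((symSet_finite M I hI k).image _)
  have hpi : (Set.pi Set.univ A).Finite := Set.Finite.pi fun k => hA k
  have h1 := (((stmtSet_finite M).prod ((Set.finite_univ (α := σ)).prod (hpi.prod hpi))).image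
    (fun p : (Option (TM2.Stmt Γ Λ σ) × σ × (∀ k, Option (Γ k)) × (∀ k, Option (Γ k))) =>
      (Col.mk p.1 p.2.1 p.2.2.1 p.2.2.2 : Col Γ Λ σ)))
  apply h1.subset
  rintro ⟨q, v, t, s⟩ ⟨hq, ht, hs⟩
  refine ⟨(q, v, t, s), ⟨hq, Set.mem_univ _, ?_, ?_⟩, rfl⟩
  · intro k _
    cases h : t k with
    | none => exact Or.inl (by simp [h])
    | some a => exact Or.inr ⟨a, ht k a h, by simp [h]⟩
  · intro k _
    cases h : s k with
    | none => exact Or.inl (by simp [h])
    | some a => exact Or.inr ⟨a, hs k a h, by simp [h]⟩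

theorem good_col [DecidableEq K] {M : Λ → TM2.Stmt Γ Λ σ} {I : ∀ k, Set (Γ k)} {c : MC Γ Λ σ}
    (h : c.Good M I) (i : ℕ) : c.col i ∈ goodCol M I := by
  refine ⟨h.1, ?_, ?_⟩
  · intro k a ha
    exact h.2 k a (List.mem_of_mem_head? ha)
  · intro k a ha
    exact h.2 k a (List.mem_of_getElem? ha)

end

theorem np_grid {L : Set (List Bool)} (h : InNP L) :
    ∃ (C : Type) (_ : Fintype C) (_ : Nonempty C) (W : C → C → C → C → Prop)
      (U : Cls → C → Prop) (Tp qp : Polynomial ℕ),
      (∀ n, 2 ≤ Tp.eval n ∧ n ≤ qp.eval n ∧ qp.eval n < Tp.eval n) ∧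
      ∀ x, x ∈ L ↔ ∃ f : ℕ → ℕ → C,
        Grid W U x (Tp.eval x.length) (qp.eval x.length) f := by
  classical
  obtain ⟨V, p, ⟨comp⟩, hL⟩ := h
  let tm := comp.tm
  letI := tm.kDecidableEq
  haveI := tm.kFin
  haveI := tm.ΛFin
  haveI := tm.σFin
  haveI := tm.Γk₀Fin
  let M := tm.m
  let al : Bool ⊕ Bool → tm.Γ tm.k₀ := comp.inputAlphabet.invFun
  let be : Bool → tm.Γ tm.k₁ := comp.outputAlphabet.invFun
  have hbe : Function.Injective be := comp.outputAlphabet.symm.injective
  obtain ⟨D, hD⟩ : ∃ D, ∀ l, depth (M l) ≤ D :=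
    ⟨Finset.univ.sup (fun l => depth (M l)), fun l => Finset.le_sup (f := fun l => depth (M l))
      (Finset.mem_univ l)⟩
  let I : ∀ k, Set (tm.Γ k) := fun k => {_a | k = tm.k₀}
  have hI : ∀ k, (I k).Finite := by
    intro k
    by_cases hk : k = tm.k₀
    · subst hk
      exact Set.toFinite _
    · have : I k = ∅ := by
        ext a; simp [I, hk]
      rw [this]; exact Set.finite_empty
  have hfin := goodCol_finite M I hI
  let qp : Polynomial ℕ := Polynomial.X + p
  let Tp : Polynomial ℕ := qp + Polynomial.C D * comp.time.comp qp + 2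
  let st : List Bool → List Bool → MC tm.Γ tm.Λ tm.σ := fun x y =>
    start tm.k₀ M tm.main tm.initialState (inputWord al x y)
  have hgood : ∀ x y, (st x y).Good M I := by
    intro x y
    refine ⟨some_mem_stmtSet.2 ⟨tm.main, subs_self _⟩, ?_⟩
    intro k a ha
    by_cases hk : k = tm.k₀
    · exact Or.inl hk
    · simp [st, start, update_of_ne hk] at ha
  -- the computation of the verifier
  have hrun : ∀ x y : List Bool, ∃ n', n' ≤ D * comp.time.eval (x.length + y.length) ∧
      ((mstep M)^[n'] (st x y)).q = none ∧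
      (((mstep M)^[n'] (st x y)).S tm.k₁)[0]? = some (be (V (x, y))) := by
    intro x y
    obtain ⟨⟨s, hs⟩, hle⟩ := comp.outputsFun (x, y)
    simp only [Option.map_some] at hs
    obtain ⟨n', hn', h'⟩ := steps_micro M D hD s _ _ hs
    have hinit : toMC M (initList tm (List.map comp.inputAlphabet.invFun
        ((encodingProd (encodingList Bool) (encodingList Bool)).encode (x, y)))) = st x y := by
      simp only [toMC, initList, st, start, Option.map_some]
      congr 1
      funext k
      by_cases hk : k = tm.k₀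
      · subst hk
        rw [dif_pos rfl, update_self]
        rfl
      · rw [dif_neg hk, update_of_ne hk]
    rw [hinit] at h'
    refine ⟨n', ?_, ?_, ?_⟩
    · refine hn'.trans (Nat.mul_le_mul_left D (le_trans hle ?_))
      have : ((encodingProd (encodingList Bool) (encodingList Bool)).encode (x, y)).length
          = x.length + y.length := by
        simp [encodingProd, encodingList]
      rw [this]
    · rw [h']
      rfl
    · rw [h']
      simp only [toMC, haltList]
      rw [dif_pos rfl]
      rfl
  have hmono : ∀ (P : Polynomial ℕ) {a b : ℕ}, a ≤ b → P.eval a ≤ P.eval b := by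
    intro P a b hab
    rw [Polynomial.eval_eq_sum, Polynomial.eval_eq_sum]
    exact Finset.sum_le_sum fun i _ => Nat.mul_le_mul_left _ (Nat.pow_le_pow_left hab i)
  have hTq : ∀ n, Tp.eval n = qp.eval n + D * comp.time.eval (qp.eval n) + 2 := by
    intro n
    simp [Tp, Polynomial.eval_comp]
  have hq : ∀ n, qp.eval n = n + p.eval n := by
    intro n; simp [qp]
  -- consequences of halting
  have hfinal : ∀ x y : List Bool, y.length ≤ p.eval x.length →
      (((mstep M)^[Tp.eval x.length - 1] (st x y)).S tm.k₁)[0]? = some (be (V (x, y))) ∧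
      ∀ t k, (((mstep M)^[t] (st x y)).S k).length < Tp.eval x.length := by
    intro x y hy
    obtain ⟨n', hn', hq0, hout⟩ := hrun x y
    have hlen : x.length + y.length ≤ qp.eval x.length := by rw [hq]; omega
    have h1 : n' ≤ D * comp.time.eval (qp.eval x.length) :=
      hn'.trans (Nat.mul_le_mul_left D (hmono _ hlen))
    have hstab : ∀ t, n' ≤ t → (mstep M)^[t] (st x y) = (mstep M)^[n'] (st x y) := by
      intro t ht
      obtain ⟨u, rfl⟩ : ∃ u, t = u + n' := ⟨t - n', by omega⟩
      rw [iterate_add_apply, iterate_halt M _ hq0]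
    have h0 : ∀ k, ((st x y).S k).length ≤ x.length + y.length := by
      intro k
      by_cases hk : k = tm.k₀
      · subst hk
        simp [st, start, inputWord]
      · simp [st, start, update_of_ne hk]
    have hle' : ∀ t, t ≤ n' → ∀ k, (((mstep M)^[t] (st x y)).S k).length < Tp.eval x.length := by
      intro t ht k
      have h2 := height_iterate M (st x y) k t
      have h3 := h0 k
      rw [hTq]
      omega
    refine ⟨?_, ?_⟩
    · rw [hstab _ (by rw [hTq]; omega)]
      exact hout
    · intro t k
      by_cases ht : t ≤ n'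
      · exact hle' t ht k
      · rw [hstab t (by omega)]
        exact hle' n' le_rfl k
  refine ⟨goodCol M I, hfin.fintype, ⟨⟨(st [] []).col 0, good_col (hgood [] []) 0⟩⟩,
    fun a b c d => WRule M a.1 b.1 c.1 d.1,
    fun κ c => URule tm.k₀ tm.k₁ M tm.main tm.initialState al be κ c.1, Tp, qp, ?_, ?_⟩
  · intro n
    rw [hTq, hq]
    omega
  · intro x
    rw [hL]
    constructor
    · rintro ⟨y, hy, hV⟩
      obtain ⟨h1, h2⟩ := hfinal x y hy
      rw [hV] at h1
      have hg := grid_complete (k₀ := tm.k₀) (k₁ := tm.k₁) (M := M) (main := tm.main)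
        (v0 := tm.initialState) (al := al) (be := be) (x := x) (y := y) (T := Tp.eval x.length)
        (q := qp.eval x.length) (by rw [hq]; omega) (fun t _ k => h2 t k) h1
      exact ⟨fun t i => ⟨((mstep M)^[t] (st x y)).col i, good_col ((hgood x y).iterate t) i⟩, hg⟩
    · rintro ⟨f, hf⟩
      have hg : Grid (WRule M) (URule tm.k₀ tm.k₁ M tm.main tm.initialState al be) x
          (Tp.eval x.length) (qp.eval x.length) (fun t i => (f t i).1) := hf
      obtain ⟨y, hy, hacc⟩ := grid_sound (by rw [hq]; omega) (by rw [hTq]; omega)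
        (by rw [hTq]; omega) hg
      have hy' : y.length ≤ p.eval x.length := by rw [hq] at hy; omega
      refine ⟨y, hy', ?_⟩
      obtain ⟨h1, -⟩ := hfinal x y hy'
      have h2 : some (be true) = some (be (V (x, y))) := hacc.symm.trans h1
      exact (hbe (Option.some.inj h2)).symm

end Pool.Agent.Helper79.Complexity
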