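import Mathlib

/-!
A small structured language over finitely many stacks of bits, compiled to
Mathlib's `Turing.FinTM2`.
-/

namespace Pool.Agent.Helper79.Complexity

open Turing Function

/-- A store: one stack of bits for every register. -/
abbrev Sto (R : Type) := R → List Bool

/-- The tops of all the stacks. -/
def tops {R : Type} (s : Sto R) : R → Option Bool := fun r => (s r).head?

/-- Structured programs. -/
inductive Prog (R : Type) : Type
  | skip : Prog R
  | push (r : R) (a : Bool) : Prog R
  | pop (r : R) : Prog R
  | seq (p q : Prog R) : Prog R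
  | ite (c : (R → Option Bool) → Bool) (p q : Prog R) : Prog R
  | loop (c : (R → Option Bool) → Bool) (p : Prog R) : Prog R

namespace Prog

variable {R : Type}

/-- Big-step semantics with the exact number of machine steps. -/
inductive Exec [DecidableEq R] : Prog R → Sto R → Sto R → ℕ → Prop
  | skip (s : Sto R) : Exec .skip s s 1
  | push (r : R) (a : Bool) (s : Sto R) : Exec (.push r a) s (update s r (a :: s r)) 1
  | pop (r : R) (s : Sto R) : Exec (.pop r) s (update s r (s r).tail) 1
  | seq {p q : Prog R} {s s' s'' : Sto R} {m n : ℕ} (h1 : Exec p s s' m) (h2 : Exec q s' s'' n) :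
      Exec (.seq p q) s s'' (m + n)
  | ite_true {c : (R → Option Bool) → Bool} {p q : Prog R} {s s' : Sto R} {n : ℕ}
      (hc : c (tops s) = true) (h : Exec p s s' n) : Exec (.ite c p q) s s' (n + 1)
  | ite_false {c : (R → Option Bool) → Bool} {p q : Prog R} {s s' : Sto R} {n : ℕ}
      (hc : c (tops s) = false) (h : Exec q s s' n) : Exec (.ite c p q) s s' (n + 1)
  | loop_done {c : (R → Option Bool) → Bool} {p : Prog R} {s : Sto R}
      (hc : c (tops s) = false) : Exec (.loop c p) s s 1
  | loop_step {c : (R → Option Bool) → Bool} {p : Prog R} {s s' s'' : Sto R} {m n : ℕ}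
      (hc : c (tops s) = true) (h1 : Exec p s s' m) (h2 : Exec (.loop c p) s' s'' n) :
      Exec (.loop c p) s s'' (m + n + 1)

/-- The labels of the compiled machine. -/
def Lab : Prog R → Type
  | .skip => Unit
  | .push _ _ => Unit
  | .pop _ => Unit
  | .seq p q => Lab p ⊕ Lab q
  | .ite _ p q => Option (Lab p ⊕ Lab q)
  | .loop _ p => Option (Lab p)

/-- finiteness of the label type -/
def labFintype : (p : Prog R) → Fintype (Lab p)
  | .skip => inferInstanceAs (Fintype Unit)
  | .push _ _ => inferInstanceAs (Fintype Unit)
  | .pop _ => inferInstanceAs (Fintype Unit)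
  | .seq p q => by
      haveI := labFintype p
      haveI := labFintype q
      exact inferInstanceAs (Fintype (Lab p ⊕ Lab q))
  | .ite _ p q => by
      haveI := labFintype p
      haveI := labFintype q
      exact inferInstanceAs (Fintype (Option (Lab p ⊕ Lab q)))
  | .loop _ p => by
      haveI := labFintype p
      exact inferInstanceAs (Fintype (Option (Lab p)))

/-- The entry label. -/
def entry : (p : Prog R) → Lab p
  | .skip => ()
  | .push _ _ => ()
  | .pop _ => ()
  | .seq p _ => Sum.inl (entry p)
  | .ite _ _ _ => (none : Option _)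
  | .loop _ _ => (none : Option _)

variable [DecidableEq R] [Fintype R]

/-- Read the tops of the stacks in the list `l` into the internal state. -/
def peekList {Λ : Type} : List R →
    TM2.Stmt (fun _ : R => Bool) Λ (R → Option Bool) →
    TM2.Stmt (fun _ : R => Bool) Λ (R → Option Bool)
  | [], q => q
  | r :: l, q => .peek r (fun v o => update v r o) (peekList l q)

/-- Read the tops of all stacks into the internal state. -/
noncomputable def peekAll {Λ : Type} (q : TM2.Stmt (fun _ : R => Bool) Λ (R → Option Bool)) :
    TM2.Stmt (fun _ : R => Bool) Λ (R → Option Bool) :=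
  peekList Finset.univ.toList q

omit [Fintype R] in
theorem stepAux_peekList {Λ : Type} (l : List R)
    (q : TM2.Stmt (fun _ : R => Bool) Λ (R → Option Bool)) (v : R → Option Bool) (s : Sto R) :
    TM2.stepAux (peekList l q) v s
      = TM2.stepAux q (fun r => if r ∈ l then tops s r else v r) s := by
  induction l generalizing v with
  | nil => simp [peekList]
  | cons a l ih =>
    rw [peekList, TM2.stepAux, ih]
    congr 1
    funext r
    by_cases h1 : r ∈ l
    · simp [h1]
    · by_cases h2 : r = a
      · subst h2
        simp [h1, tops]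
      · simp [h1, h2, update_of_ne h2]

theorem stepAux_peekAll {Λ : Type}
    (q : TM2.Stmt (fun _ : R => Bool) Λ (R → Option Bool)) (v : R → Option Bool) (s : Sto R) :
    TM2.stepAux (peekAll q) v s = TM2.stepAux q (tops s) s := by
  rw [peekAll, stepAux_peekList]
  simp

/-- Machine code of a program, given the embedding of its labels and the continuation. -/
noncomputable def code {Λ : Type} : (p : Prog R) → (Lab p → Λ) → Λ → Lab p →
    TM2.Stmt (fun _ : R => Bool) Λ (R → Option Bool)
  | .skip, _, cont, _ => .goto (fun _ => cont)
  | .push r a, _, cont, _ => .push r (fun _ => a) (.goto (fun _ => cont))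
  | .pop r, _, cont, _ => .pop r (fun v _ => v) (.goto (fun _ => cont))
  | .seq p q, emb, _, Sum.inl l =>
      code p (fun x => emb (Sum.inl x)) (emb (Sum.inr (entry q))) l
  | .seq _ q, emb, cont, Sum.inr l => code q (fun x => emb (Sum.inr x)) cont l
  | .ite c p q, emb, _, none =>
      peekAll (.branch c (.goto (fun _ => emb (some (Sum.inl (entry p)))))
        (.goto (fun _ => emb (some (Sum.inr (entry q))))))
  | .ite _ p _, emb, cont, some (Sum.inl l) => code p (fun x => emb (some (Sum.inl x))) cont l
  | .ite _ _ q, emb, cont, some (Sum.inr l) => code q (fun x => emb (some (Sum.inr x))) cont l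
  | .loop c p, emb, cont, none =>
      peekAll (.branch c (.goto (fun _ => emb (some (entry p)))) (.goto (fun _ => cont)))
  | .loop _ p, emb, _, some l => code p (fun x => emb (some x)) (emb none) l

/-- `n` steps of a machine. -/
def Steps {Λ : Type} (M : Λ → TM2.Stmt (fun _ : R => Bool) Λ (R → Option Bool)) (n : ℕ)
    (c c' : TM2.Cfg (fun _ : R => Bool) Λ (R → Option Bool)) : Prop :=
  (flip bind (TM2.step M))^[n] (some c) = some c'

omit [Fintype R] in
theorem Steps.trans {Λ : Type} {M : Λ → TM2.Stmt (fun _ : R => Bool) Λ (R → Option Bool)}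
    {m n : ℕ} {c c' c'' : TM2.Cfg (fun _ : R => Bool) Λ (R → Option Bool)}
    (h1 : Steps M m c c') (h2 : Steps M n c' c'') : Steps M (m + n) c c'' := by
  unfold Steps at *
  rw [Nat.add_comm, iterate_add_apply, h1, h2]

omit [Fintype R] in
theorem Steps.single {Λ : Type} {M : Λ → TM2.Stmt (fun _ : R => Bool) Λ (R → Option Bool)}
    (l : Λ) (v : R → Option Bool) (s : Sto R) :
    Steps M 1 ⟨some l, v, s⟩ (TM2.stepAux (M l) v s) := rfl

theorem code_correct {Λ : Type} {M : Λ → TM2.Stmt (fun _ : R => Bool) Λ (R → Option Bool)}
    {p : Prog R} {s s' : Sto R} {n : ℕ} (h : Exec p s s' n) :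
    ∀ (emb : Lab p → Λ) (cont : Λ), (∀ l, M (emb l) = code p emb cont l) →
      ∀ v, ∃ v', Steps M n ⟨some (emb (entry p)), v, s⟩ ⟨some cont, v', s'⟩ := by
  induction h with
  | skip s =>
    intro emb cont hM v
    refine ⟨v, ?_⟩
    have := Steps.single (M := M) (emb (entry .skip)) v s
    rw [hM] at this
    exact this
  | push r a s =>
    intro emb cont hM v
    refine ⟨v, ?_⟩
    have := Steps.single (M := M) (emb (entry (.push r a))) v s
    rw [hM] at this
    exact this
  | pop r s =>
    intro emb cont hM v
    refine ⟨v, ?_⟩
    have := Steps.single (M := M) (emb (entry (.pop r))) v s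
    rw [hM] at this
    exact this
  | @seq p q s s' s'' m n h1 h2 ih1 ih2 =>
    intro emb cont hM v
    obtain ⟨v1, hv1⟩ := ih1 (fun x => emb (Sum.inl x)) (emb (Sum.inr (entry q)))
      (fun l => hM (Sum.inl l)) v
    obtain ⟨v2, hv2⟩ := ih2 (fun x => emb (Sum.inr x)) cont (fun l => hM (Sum.inr l)) v1
    exact ⟨v2, hv1.trans hv2⟩
  | @ite_true c p q s s' n hc h ih =>
    intro emb cont hM v
    have h0 := Steps.single (M := M) (emb (entry (.ite c p q))) v s
    rw [hM] at h0
    change Steps M 1 _ (TM2.stepAux (peekAll _) v s) at h0
    rw [stepAux_peekAll, TM2.stepAux, hc] at h0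
    simp only [cond_true, TM2.stepAux] at h0
    obtain ⟨v1, hv1⟩ := ih (fun x => emb (some (Sum.inl x))) cont
      (fun l => hM (some (Sum.inl l))) (tops s)
    refine ⟨v1, ?_⟩
    rw [Nat.add_comm]
    exact h0.trans hv1
  | @ite_false c p q s s' n hc h ih =>
    intro emb cont hM v
    have h0 := Steps.single (M := M) (emb (entry (.ite c p q))) v s
    rw [hM] at h0
    change Steps M 1 _ (TM2.stepAux (peekAll _) v s) at h0
    rw [stepAux_peekAll, TM2.stepAux, hc] at h0
    simp only [cond_false, TM2.stepAux] at h0
    obtain ⟨v1, hv1⟩ := ih (fun x => emb (some (Sum.inr x))) cont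
      (fun l => hM (some (Sum.inr l))) (tops s)
    refine ⟨v1, ?_⟩
    rw [Nat.add_comm]
    exact h0.trans hv1
  | @loop_done c p s hc =>
    intro emb cont hM v
    have h0 := Steps.single (M := M) (emb (entry (.loop c p))) v s
    rw [hM] at h0
    change Steps M 1 _ (TM2.stepAux (peekAll _) v s) at h0
    rw [stepAux_peekAll, TM2.stepAux, hc] at h0
    simp only [cond_false, TM2.stepAux] at h0
    exact ⟨_, h0⟩
  | @loop_step c p s s' s'' m n hc h1 h2 ih1 ih2 =>
    intro emb cont hM v
    have h0 := Steps.single (M := M) (emb (entry (.loop c p))) v s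
    rw [hM] at h0
    change Steps M 1 _ (TM2.stepAux (peekAll _) v s) at h0
    rw [stepAux_peekAll, TM2.stepAux, hc] at h0
    simp only [cond_true, TM2.stepAux] at h0
    obtain ⟨v1, hv1⟩ := ih1 (fun x => emb (some x)) (emb none) (fun l => hM (some l)) (tops s)
    obtain ⟨v2, hv2⟩ := ih2 emb cont hM v1
    refine ⟨v2, ?_⟩
    have := (h0.trans hv1).trans hv2
    rwa [show 1 + m + n = m + n + 1 by omega] at this

/-- The statements of the machine of a program. -/
noncomputable def mcode (p : Prog R) :
    Option (Lab p) → TM2.Stmt (fun _ : R => Bool) (Option (Lab p)) (R → Option Bool)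
  | some l => code p some none l
  | none => .load (fun _ _ => none) .halt

/-- The machine of a program, with input register `kin` and output register `kout`. -/
noncomputable def machine (p : Prog R) (kin kout : R) : FinTM2 :=
  haveI := labFintype p
  { K := R
    k₀ := kin
    k₁ := kout
    Γ := fun _ => Bool
    Λ := Option (Lab p)
    main := some (entry p)
    σ := R → Option Bool
    initialState := fun _ => none
    m := mcode p }

/-- the store with `x` in register `k` and all other registers empty -/
def single (k : R) (x : List Bool) : Sto R := fun r => if r = k then x else []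

theorem init_eq (p : Prog R) (kin kout : R) (x : List Bool) :
    initList (machine p kin kout) x
        = ⟨some (some (entry p)), fun _ => none, single kin x⟩ := by
  unfold initList
  congr 1

theorem halt_eq (p : Prog R) (kin kout : R) (x : List Bool) :
    haltList (machine p kin kout) x
        = ⟨none, fun _ => none, single kout x⟩ := by
  unfold haltList
  congr 1

theorem machine_steps (p : Prog R) (kin kout : R) (x y x' y' : List Bool) (n : ℕ)
    (hx : x' = x) (hy : y' = y)
    (h : Exec p (single kin x) (single kout y) n) :
    (flip bind (machine p kin kout).step)^[n + 1] (some (initList (machine p kin kout) x')) =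
      some (haltList (machine p kin kout) y') := by
  subst hx
  subst hy
  obtain ⟨v', hv'⟩ := code_correct (M := mcode p) h some none (fun l => rfl) (fun _ => none)
  have hlast := Steps.single (M := mcode p) none v' (single kout y')
  have := hv'.trans hlast
  unfold Steps at this
  rw [init_eq, halt_eq]
  exact this

theorem machine_computes {α : Type} (p : Prog R) (kin kout : R) (enc : α → List Bool)
    (f : List Bool → α) (time : Polynomial ℕ)
    (h : ∀ x : List Bool, ∃ n, n ≤ time.eval x.length ∧
      Exec p (single kin x) (single kout (enc (f x))) n) :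
    Nonempty (TM2ComputableInPolyTime (Computability.encodingList Bool).encode enc f) := by
  choose n hn hexec using h
  refine ⟨{ tm := machine p kin kout, inputAlphabet := Equiv.refl _,
            outputAlphabet := Equiv.refl _, time := time + 1, outputsFun := ?_ }⟩
  intro x
  refine ⟨⟨n x + 1, ?_⟩, ?_⟩
  · have e1 : (List.map (Equiv.refl Bool).invFun ((Computability.encodingList Bool).encode x)) = x :=
      List.map_id x
    have e2 : (List.map (Equiv.refl Bool).invFun (enc (f x))) = enc (f x) :=
      List.map_id _
    exact machine_steps p kin kout x (enc (f x)) _ _ (n x) e1 e2 (hexec x)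
  · have := hn x
    have hx : (Computability.encodingList Bool).encode x = x := rfl
    change n x + 1 ≤ (time + 1).eval x.length
    rw [Polynomial.eval_add, Polynomial.eval_one]
    omega

end Prog

end Pool.Agent.Helper79.Complexity
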