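import Pool.Agent.Helper79.Complexity.Env

/-!
Setting up the counters, cleaning up, and the main theorem on nested-loop programs.
-/

namespace Pool.Agent.Helper79.Complexity

open Function Prog

variable {m : ℕ}

/-! ### Horner evaluation -/

/-- value of a polynomial given by the list of its coefficients -/
def hornerVal : List ℕ → ℕ → ℕ
  | [], _ => 0
  | c :: l, n => hornerVal l n * n + c

/-- the polynomial of a list of coefficients -/
noncomputable def hornerPoly : List ℕ → Polynomial ℕ
  | [] => 0
  | c :: l => hornerPoly l * Polynomial.X + Polynomial.C c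

theorem eval_hornerPoly (l : List ℕ) (n : ℕ) : (hornerPoly l).eval n = hornerVal l n := by
  induction l with
  | nil => simp [hornerPoly, hornerVal]
  | cons c l ih => simp [hornerPoly, hornerVal, ih]

theorem exists_horner (p : Polynomial ℕ) : ∃ l, hornerPoly l = p := by
  generalize hd : p.natDegree = d
  induction d using Nat.strong_induction_on generalizing p with
  | _ d ih =>
    by_cases h0 : d = 0
    · refine ⟨[p.coeff 0], ?_⟩
      have := Polynomial.eq_C_of_natDegree_eq_zero (p := p) (by omega)
      rw [this]
      simp [hornerPoly]
    · have hlt : p.divX.natDegree < d := by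
        rw [Polynomial.natDegree_divX_eq_natDegree_tsub_one]
        omega
      obtain ⟨l, hl⟩ := ih _ hlt p.divX rfl
      refine ⟨p.coeff 0 :: l, ?_⟩
      rw [hornerPoly, hl]
      exact Polynomial.divX_mul_X_add p

/-- add a copy of `N` to `a`: `N` is moved to `tb`, and `a` grows -/
def addN (a : Reg m) : Prog (Reg m) :=
  .loop (fun t => (t Reg.N).isSome) (.seq (mv Reg.N Reg.tb) (.push a true))

/-- multiply `a` by `N` -/
def mulN (a : Reg m) : Prog (Reg m) :=
  .seq (mvAll a Reg.ta)
    (.loop (fun t => (t Reg.ta).isSome)
      (.seq (.pop Reg.ta) (.seq (addN a) (mvAll Reg.tb Reg.N))))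

/-- evaluation of a polynomial at `N`, result in `a` -/
def hornerP (a : Reg m) : List ℕ → Prog (Reg m)
  | [] => .skip
  | c :: l => .seq (hornerP a l) (.seq (mulN a) (pushes a (List.replicate c true)))

/-- `a` is a register that can be used as accumulator -/
def Acc (a : Reg m) : Prop := Distinct4 (Reg.N : Reg m) Reg.ta Reg.tb a

section

variable {a : Reg m} (h : Acc a) (s : Sto (Reg m))
include h

theorem addN_exec (n i B : ℕ) (C : List Bool) :
    ExecLe (addN a) (up4 s Reg.N Reg.ta Reg.tb a (List.replicate n true) C
        (List.replicate i true) (List.replicate B true))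
      (up4 s Reg.N Reg.ta Reg.tb a [] C
        (List.replicate (i + n) true) (List.replicate (B + n) true)) (6 * n + 1) := by
  induction n generalizing i B with
  | zero =>
    simp only [List.replicate_zero, Nat.add_zero]
    exact ExecLe.loop_done (by simp [tops, up4_a h])
  | succ n ih =>
    have h1 := mv_exec (a := Reg.N) (b := Reg.tb) (by simp)
      (up4 s Reg.N Reg.ta Reg.tb a (List.replicate (n + 1) true) C
        (List.replicate i true) (List.replicate B true)) true (List.replicate n true)
        (by rw [up4_a h, List.replicate_succ])
    rw [up4_upd_a h, up4_c h, up4_upd_c h, ← List.replicate_succ] at h1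
    have h2 := ExecLe.push a true (up4 s Reg.N Reg.ta Reg.tb a (List.replicate n true) C
        (List.replicate (i + 1) true) (List.replicate B true))
    rw [up4_d, up4_upd_d, ← List.replicate_succ] at h2
    have h3 := ih (i + 1) (B + 1)
    have := ExecLe.loop_step (c := fun t => (t Reg.N).isSome)
      (by simp [tops, up4_a h, List.replicate_succ]) (h1.seq h2) h3
    have e1 : i + 1 + n = i + (n + 1) := by omega
    have e2 : B + 1 + n = B + (n + 1) := by omega
    rw [e1, e2] at this
    exact this.mono (by omega)

theorem round_exec (n B : ℕ) (C : List Bool) :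
    ExecLe (.seq (addN a) (mvAll Reg.tb Reg.N))
      (up4 s Reg.N Reg.ta Reg.tb a (List.replicate n true) C
        [] (List.replicate B true))
      (up4 s Reg.N Reg.ta Reg.tb a (List.replicate n true) C
        [] (List.replicate (B + n) true)) (11 * n + 2) := by
  have h1 := addN_exec h s n 0 B C
  have h2 := mvAll_exec (a := (Reg.tb : Reg m)) (b := Reg.N) (by simp)
    (up4 s Reg.N Reg.ta Reg.tb a [] C
        (List.replicate (0 + n) true) (List.replicate (B + n) true))
  rw [up4_c h, up4_a h, up4_upd_c h, up4_upd_a h] at h2
  simp only [List.reverse_replicate, List.append_nil, List.length_replicate, Nat.zero_add] at h2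
  simp only [List.replicate_zero, Nat.zero_add] at h1
  exact (h1.seq h2).mono (by omega)

theorem mulLoop_exec (n A B : ℕ) :
    ExecLe (.loop (fun t => (t Reg.ta).isSome)
      (.seq (.pop Reg.ta) (.seq (addN a) (mvAll Reg.tb Reg.N))))
      (up4 s Reg.N Reg.ta Reg.tb a (List.replicate n true) (List.replicate A true)
        [] (List.replicate B true))
      (up4 s Reg.N Reg.ta Reg.tb a (List.replicate n true) []
        [] (List.replicate (B + A * n) true)) (A * (11 * n + 4) + 1) := by
  induction A generalizing B with
  | zero =>
    simp only [Nat.zero_mul, Nat.add_zero, Nat.zero_add, List.replicate_zero]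
    exact ExecLe.loop_done (by simp [tops, up4_b h])
  | succ A ih =>
    have h1 := ExecLe.pop Reg.ta (up4 s Reg.N Reg.ta Reg.tb a (List.replicate n true)
      (List.replicate (A + 1) true) [] (List.replicate B true))
    rw [up4_b h, up4_upd_b h, List.replicate_succ, List.tail_cons] at h1
    have h2 := round_exec h s n B (List.replicate A true)
    have h3 := ih (B + n)
    have := ExecLe.loop_step (c := fun t => (t Reg.ta).isSome)
      (by simp [tops, up4_b h]) (h1.seq h2) h3
    have e1 : B + n + A * n = B + (A + 1) * n := by ring
    rw [e1] at this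
    rw [List.replicate_succ (n := A)]
    refine this.mono ?_
    ring_nf
    omega

theorem mulN_exec (n A : ℕ) (h1 : s Reg.N = List.replicate n true) (h2 : s Reg.ta = [])
    (h3 : s Reg.tb = []) (h4 : s a = List.replicate A true) :
    ExecLe (mulN a) s (update s a (List.replicate (A * n) true)) (A * (11 * n + 9) + 2) := by
  have e0 : s = up4 s Reg.N Reg.ta Reg.tb a (List.replicate n true) [] []
      (List.replicate A true) := by
    have := up4_self (a := (Reg.N : Reg m)) (b := Reg.ta) (c := Reg.tb) (d := a) s
    rw [h1, h2, h3, h4] at this
    exact this.symm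
  have k1 := mvAll_exec (a := a) (b := Reg.ta) h.bd.symm s
  have e1 : update (update s a []) Reg.ta ((s a).reverse ++ s Reg.ta)
      = up4 s Reg.N Reg.ta Reg.tb a (List.replicate n true) (List.replicate A true) []
      (List.replicate 0 true) := by
    rw [h2, h4]
    nth_rewrite 1 [e0]
    rw [up4_upd_d, up4_upd_b h]
    simp
  rw [e1, h4] at k1
  have k2 := mulLoop_exec h s n A 0
  have k3 := k1.seq k2
  have e2 : up4 s Reg.N Reg.ta Reg.tb a (List.replicate n true) [] []
      (List.replicate (0 + A * n) true) = update s a (List.replicate (A * n) true) := by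
    nth_rewrite 2 [e0]
    rw [up4_upd_d, Nat.zero_add]
  rw [e2] at k3
  refine k3.mono ?_
  rw [List.length_replicate]
  ring_nf
  omega

end

/-- cost of Horner evaluation -/
noncomputable def hornerCost : List ℕ → Polynomial ℕ
  | [] => 1
  | c :: l => hornerCost l + (hornerPoly l * (11 * Polynomial.X + 9) + 2 + Polynomial.C (c + 1))

theorem hornerP_exec {a : Reg m} (h : Acc a) (s : Sto (Reg m)) (n : ℕ) (l : List ℕ)
    (h1 : s Reg.N = List.replicate n true) (h2 : s Reg.ta = [])
    (h3 : s Reg.tb = []) (h4 : s a = []) :
    ExecLe (hornerP a l) s (update s a (List.replicate (hornerVal l n) true))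
      ((hornerCost l).eval n) := by
  induction l with
  | nil =>
    simp only [hornerP, hornerVal, List.replicate_zero, hornerCost, Polynomial.eval_one]
    have : update s a [] = s := by rw [← h4]; simp
    rw [this]
    exact ExecLe.skip s
  | cons c l ih =>
    set s1 := update s a (List.replicate (hornerVal l n) true) with hs1
    have k1 := mulN_exec h s1 n (hornerVal l n)
      (by rw [hs1, update_of_ne h.ad]; exact h1)
      (by rw [hs1, update_of_ne h.bd]; exact h2)
      (by rw [hs1, update_of_ne h.cd]; exact h3)
      (by rw [hs1, update_self])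
    have k2 := pushes_exec a (List.replicate c true)
      (update s1 a (List.replicate (hornerVal l n * n) true))
    have k3 := ih.seq (k1.seq k2)
    have e : update (update s1 a (List.replicate (hornerVal l n * n) true)) a
        (List.replicate c true ++ update s1 a (List.replicate (hornerVal l n * n) true) a)
        = update s a (List.replicate (hornerVal (c :: l) n) true) := by
      rw [update_self, update_idem, ← List.replicate_add, hs1, update_idem, hornerVal,
        Nat.add_comm]
    rw [e] at k3
    refine k3.mono ?_
    simp only [hornerCost, Polynomial.eval_add, Polynomial.eval_mul, Polynomial.eval_X,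
      Polynomial.eval_ofNat, Polynomial.eval_C, eval_hornerPoly, List.length_replicate]
    omega

/-! ### Counting the input -/

/-- compute the length of the input in unary -/
def countN : Prog (Reg m) :=
  .seq (.loop (fun t => (t Reg.X).isSome) (.seq (mv Reg.X Reg.ta) (.push Reg.N true)))
    (mvAll Reg.ta Reg.X)

/-- a store with three special registers -/
def st3 (x : List Bool) (t : List Bool) (n : ℕ) : Sto (Reg m)
  | .X => x
  | .ta => t
  | .N => List.replicate n true
  | _ => []

theorem countLoop_exec (x t : List Bool) (n : ℕ) :
    ExecLe (.loop (fun t => (t Reg.X).isSome) (.seq (mv Reg.X Reg.ta) (.push Reg.N true)))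
      (st3 (m := m) x t n) (st3 [] (x.reverse ++ t) (n + x.length)) (6 * x.length + 1) := by
  induction x generalizing t n with
  | nil =>
    simp only [List.reverse_nil, List.nil_append, List.length_nil, Nat.add_zero]
    exact ExecLe.loop_done (by simp [tops, st3])
  | cons u x ih =>
    have h1 := mv_exec (a := (Reg.X : Reg m)) (b := Reg.ta) (by simp) (st3 (u :: x) t n) u x rfl
    have h2 := ExecLe.push Reg.N true (update (update (st3 (m := m) (u :: x) t n) Reg.X x) Reg.ta
      (u :: st3 (m := m) (u :: x) t n Reg.ta))
    have e : update (update (update (st3 (m := m) (u :: x) t n) Reg.X x) Reg.ta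
      (u :: st3 (m := m) (u :: x) t n Reg.ta)) Reg.N
        (true :: (update (update (st3 (m := m) (u :: x) t n) Reg.X x) Reg.ta
      (u :: st3 (m := m) (u :: x) t n Reg.ta)) Reg.N) = st3 x (u :: t) (n + 1) := by
      funext r
      cases r <;> simp [st3, List.replicate_succ, update_apply]
    rw [e] at h2
    have h3 := ih (u :: t) (n + 1)
    have := ExecLe.loop_step (c := fun t => (t Reg.X).isSome)
      (by simp [tops, st3]) (h1.seq h2) h3
    have e1 : n + 1 + x.length = n + (u :: x).length := by simp; omega
    rw [e1] at this
    simp only [List.reverse_cons, List.append_assoc, List.cons_append, List.nil_append]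
    exact this.mono (by simp; omega)

theorem countN_exec (x : List Bool) :
    ExecLe (countN (m := m)) (single Reg.X x) (st3 x [] x.length) (11 * x.length + 2) := by
  have e0 : single (Reg.X : Reg m) x = st3 x [] 0 := by
    funext r
    cases r <;> simp [single, st3]
  rw [e0]
  have h1 := countLoop_exec (m := m) x [] 0
  have h2 := mvAll_exec (a := (Reg.ta : Reg m)) (b := Reg.X) (by simp)
    (st3 [] (x.reverse ++ []) (0 + x.length))
  have e : update (update (st3 (m := m) [] (x.reverse ++ []) (0 + x.length)) Reg.ta []) Reg.X
      ((st3 (m := m) [] (x.reverse ++ []) (0 + x.length) Reg.ta).reverse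
        ++ st3 (m := m) [] (x.reverse ++ []) (0 + x.length) Reg.X)
      = st3 x [] x.length := by
    funext r
    cases r <;> simp [st3, update_apply]
  rw [e] at h2
  have := h1.seq h2
  refine this.mono ?_
  simp [st3]
  omega

/-! ### Filling the counters -/

/-- run `hornerP` on each counter register -/
def fillP (l : List ℕ) : List (Fin m) → Prog (Reg m)
  | [] => .skip
  | k :: ks => .seq (hornerP (Reg.R k) l) (fillP l ks)

/-- set the registers `R k`, `k ∈ ks` -/
def setR (s : Sto (Reg m)) (ks : List (Fin m)) (t : ℕ) : Sto (Reg m)
  | .R k => if k ∈ ks then List.replicate t true else s (.R k)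
  | r => s r

theorem fillP_exec (l : List ℕ) (n : ℕ) (ks : List (Fin m)) (hks : ks.Nodup) (s : Sto (Reg m))
    (h1 : s Reg.N = List.replicate n true) (h2 : s Reg.ta = [])
    (h3 : s Reg.tb = []) (h4 : ∀ k ∈ ks, s (Reg.R k) = []) :
    ExecLe (fillP l ks) s (setR s ks (hornerVal l n)) (ks.length * (hornerCost l).eval n + 1) := by
  induction ks generalizing s with
  | nil =>
    have : setR s [] (hornerVal l n) = s := by
      funext r
      cases r <;> simp [setR]
    rw [this]
    exact (ExecLe.skip s).mono (by simp)
  | cons k ks ih =>
    have hacc : Acc (Reg.R k : Reg m) := ⟨by simp, by simp, by simp, by simp, by simp, by simp⟩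
    have k1 := hornerP_exec hacc s n l h1 h2 h3 (h4 k (by simp))
    rw [List.nodup_cons] at hks
    have k2 := ih hks.2 (update s (Reg.R k) (List.replicate (hornerVal l n) true))
      (by rw [update_of_ne (by simp)]; exact h1)
      (by rw [update_of_ne (by simp)]; exact h2)
      (by rw [update_of_ne (by simp)]; exact h3)
      (by
        intro k' hk'
        have : k' ≠ k := by rintro rfl; exact hks.1 hk'
        rw [update_of_ne (by simpa using this)]
        exact h4 k' (by simp [hk']))
    have e : setR (update s (Reg.R k) (List.replicate (hornerVal l n) true)) ks (hornerVal l n)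
        = setR s (k :: ks) (hornerVal l n) := by
      funext r
      cases r with
      | R k' =>
        by_cases hk' : k' = k
        · subst hk'
          simp [setR]
        · by_cases hk2 : k' ∈ ks
          · simp [setR, hk2]
          · simp [setR, hk2, hk']
      | _ => simp [setR]
    rw [e] at k2
    refine (k1.seq k2).mono ?_
    simp only [List.length_cons]
    ring_nf
    omega

/-! ### Cleaning up -/

/-- clear the registers in a list -/
def clearAll : List (Reg m) → Prog (Reg m)
  | [] => .skip
  | r :: rs => .seq (clear r) (clearAll rs)

theorem clearAll_exec (rs : List (Reg m)) (B : ℕ) (s : Sto (Reg m))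
    (hB : ∀ r ∈ rs, (s r).length ≤ B) :
    ExecLe (clearAll rs) s (fun r => if r ∈ rs then [] else s r)
      (rs.length * (2 * B + 1) + 1) := by
  induction rs generalizing s with
  | nil => simpa [clearAll] using ExecLe.skip s
  | cons r rs ih =>
    have k1 := clear_exec r s
    have k2 := ih (update s r []) (by
      intro r' hr'
      by_cases h : r' = r
      · subst h; simp
      · rw [update_of_ne h]; exact hB r' (by simp [hr']))
    have e : (fun r' => if r' ∈ rs then [] else update s r [] r')
        = (fun r' => if r' ∈ r :: rs then [] else s r') := by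
      funext r'
      by_cases h1 : r' ∈ rs
      · simp [h1]
      · by_cases h2 : r' = r
        · subst h2; simp
        · simp [h1, h2]
    rw [e] at k2
    refine (k1.seq k2).mono ?_
    have := hB r (by simp)
    simp only [List.length_cons]
    ring_nf
    omega

/-- the registers other than the output -/
noncomputable def junk : List (Reg m) := (Finset.univ.toList).filter (· ≠ Reg.OUT)

theorem mem_junk (r : Reg m) : r ∈ junk ↔ r ≠ Reg.OUT := by
  simp [junk]

/-- the initial environment -/
noncomputable def env0 (m : ℕ) (Tp qp : Polynomial ℕ) (x : List Bool) : Env m :=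
  { x := x, T := Tp.eval x.length, q := qp.eval x.length, v := fun _ => none }

/-- **Main theorem on nested-loop programs**: if the encoding of `f x` can be printed by
a nested-loop program, then `f` is computable in polynomial time. -/
theorem polyTime_of_printable {α : Type} (enc : α → List Bool) (f : List Bool → α)
    (Tp qp : Polynomial ℕ) (g : Env m → List Bool) (hg : Printable Set.univ g)
    (hval : ∀ x, enc (f x) = g (env0 m Tp qp x)) :
    Nonempty (Turing.TM2ComputableInPolyTime (Computability.encodingList Bool).encode enc f) := by
  obtain ⟨p, K, hp⟩ := hg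
  obtain ⟨lT, hlT⟩ := exists_horner Tp
  obtain ⟨lq, hlq⟩ := exists_horner qp
  let sz : Polynomial ℕ := Tp + Polynomial.X + qp
  let prog : Prog (Reg m) := .seq countN (.seq (hornerP Reg.Q lq)
    (.seq (fillP lT (List.finRange m)) (.seq (clear Reg.N) (.seq p (clearAll junk)))))
  apply machine_computes prog Reg.X Reg.OUT enc f
    ((11 * Polynomial.X + 2) + (hornerCost lq + ((Polynomial.C m * hornerCost lT + 1)
      + ((2 * Polynomial.X + 1) + (K.comp sz +
        (Polynomial.C (junk (m := m)).length * (2 * sz + 1) + 1))))))
  intro x
  have e1 := countN_exec (m := m) x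
  have e2 := hornerP_exec (m := m) (a := Reg.Q)
    (⟨by simp, by simp, by simp, by simp, by simp, by simp⟩) (st3 x [] x.length) x.length lq
    rfl rfl rfl rfl
  set s2 := update (st3 (m := m) x [] x.length) Reg.Q
    (List.replicate (hornerVal lq x.length) true) with hs2
  have e3 := fillP_exec (m := m) lT x.length (List.finRange m) (List.nodup_finRange m) s2
    (by rw [hs2, update_of_ne (by simp)]; rfl) (by rw [hs2, update_of_ne (by simp)]; rfl)
    (by rw [hs2, update_of_ne (by simp)]; rfl)
    (by intro k _; rw [hs2, update_of_ne (by simp)]; rfl)
  set s3 := setR s2 (List.finRange m) (hornerVal lT x.length) with hs3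
  have e4 := clear_exec (Reg.N : Reg m) s3
  have hs4 : update s3 Reg.N [] = (env0 m Tp qp x).sto [] := by
    funext r
    cases r with
    | R k =>
      simp only [hs3, setR, hs2, Env.sto, env0, Env.rlen, update_apply]
      simp [← hlT, eval_hornerPoly]
    | D k =>
      simp only [hs3, setR, hs2, Env.sto, env0, Env.dlen, update_apply]
      simp [st3]
    | Q =>
      simp only [hs3, setR, hs2, Env.sto, env0, update_apply]
      simp [← hlq, eval_hornerPoly]
    | _ => simp [hs3, setR, hs2, Env.sto, env0, update_apply, st3]
  rw [hs4] at e4
  have hv : (env0 m Tp qp x).Valid := by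
    intro k i h
    simp [env0] at h
  have e5 := hp (env0 m Tp qp x) hv (fun _ => by simp [env0]) []
  rw [List.append_nil, ← hval] at e5
  have hsize : (env0 m Tp qp x).size = sz.eval x.length := by
    simp [env0, Env.size, sz]
  have e6 := clearAll_exec (junk (m := m)) ((env0 m Tp qp x).size)
    ((env0 m Tp qp x).sto (enc (f x))) (by
      intro r hr
      rw [mem_junk] at hr
      have h3 := Env.rlen_le hv
      have h4 := Env.dlen_le (e := env0 m Tp qp x)
      cases r with
      | OUT => exact absurd rfl hr
      | R k => simp only [Env.sto, List.length_replicate, Env.size]; have := h3 k; omega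
      | D k => simp only [Env.sto, List.length_replicate, Env.size]; have := h4 k; omega
      | _ => simp [Env.sto, Env.size] <;> omega)
  have hs6 : (fun r => if r ∈ junk then [] else (env0 m Tp qp x).sto (enc (f x)) r)
      = single Reg.OUT (enc (f x)) := by
    funext r
    by_cases h : r = Reg.OUT
    · subst h
      simp [mem_junk, single, Env.sto]
    · simp [mem_junk, single, h]
  rw [hs6] at e6
  obtain ⟨n, hn, hex⟩ := e1.seq (e2.seq (e3.seq (e4.seq (e5.seq e6))))
  refine ⟨n, hn.trans ?_, hex⟩
  have hN : (s3 Reg.N).length = x.length := by
    simp [hs3, setR, hs2, st3]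
  rw [hN]
  simp only [Polynomial.eval_add, Polynomial.eval_mul, Polynomial.eval_X,
      Polynomial.eval_ofNat, Polynomial.eval_C, Polynomial.eval_one, Polynomial.eval_comp,
      List.length_finRange, hsize]
  exact le_rfl

end Pool.Agent.Helper79.Complexity
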